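import Pool.Agent.H91.LA.TwoN

/-!
# Elimination of coordinates with affine labels

`eval_one`: a polynomial of degree at most one. `elr`: a polynomial of degree at most one, in which
the coordinates `c k₀, …, c (k₀ + n - 1)` are replaced by their affine labels; `bet`: the coefficients
of the heights over the labels. `el_pt`: if the polynomial is small on the box of the charts, then so
are the remaining polynomial and the coefficients.
-/

set_option autoImplicit false

namespace Pool.FVL91

open Finset Real MvPolynomial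
open Pool.Agent.H49.Ent Pool.Agent.H32.Dense Pool.STK Pool.KA Pool.KSAT Pool.K2S Pool.PB Pool.GEN
open Pool.S6C Pool.RCD Pool.LA91

/-- A polynomial of degree at most one. -/
theorem eval_one {σ : Type} [Fintype σ] {H : MvPolynomial σ ℝ} (h : H.totalDegree ≤ 1)
    (x : σ → ℝ) : eval x H = coeff 0 H + ∑ o, coeff (Finsupp.single o 1) H * x o := by
  classical
  obtain ⟨T, hT⟩ : ∃ T : Finset (σ →₀ ℕ), T = insert 0 (univ.image fun o => Finsupp.single o 1) :=
    ⟨_, rfl⟩
  have hsub : H.support ⊆ T := by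
    intro d hd
    have h1 := (le_totalDegree hd).trans h
    rw [hT]
    by_cases h0 : d = 0
    · rw [h0]
      exact mem_insert_self _ _
    · refine mem_insert_of_mem (mem_image.2 ?_)
      obtain ⟨o, ho⟩ : ∃ o, d o ≠ 0 := by
        by_contra hcon
        push Not at hcon
        exact h0 (Finsupp.ext hcon)
      refine ⟨o, mem_univ _, ?_⟩
      have h2 : ∑ i ∈ d.support, d i ≤ 1 := h1
      have h3 : o ∈ d.support := Finsupp.mem_support_iff.2 ho
      have h4 : d o ≤ ∑ i ∈ d.support, d i := Finset.single_le_sum (fun _ _ => Nat.zero_le _) h3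
      have h5 : d o = 1 := by omega
      ext i
      by_cases hi : i = o
      · rw [hi, Finsupp.single_eq_same, h5]
      · rw [Finsupp.single_eq_of_ne hi]
        by_contra hcon
        have h6 : i ∈ d.support := Finsupp.mem_support_iff.2 fun e => hcon e.symm
        have h7 : ∑ j ∈ ({i, o} : Finset σ), d j ≤ ∑ j ∈ d.support, d j :=
          Finset.sum_le_sum_of_subset (by
            intro j hj
            rcases Finset.mem_insert.1 hj with rfl | hj
            · exact h6
            · rw [Finset.mem_singleton.1 hj]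
              exact h3)
        rw [Finset.sum_pair hi] at h7
        have h8 : d i ≠ 0 := fun e => hcon e.symm
        omega
  rw [eval_eq', Finset.sum_subset hsub (fun d _ hd => by
    rw [notMem_support_iff.1 hd, zero_mul]), hT, Finset.sum_insert]
  · congr 1
    · simp
    · rw [Finset.sum_image]
      · refine Finset.sum_congr rfl fun o _ => ?_
        congr 1
        rw [Finset.prod_eq_single o]
        · rw [Finsupp.single_eq_same, pow_one]
        · intro b _ hb
          rw [Finsupp.single_eq_of_ne hb, pow_zero]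
        · intro h
          exact (h (mem_univ o)).elim
      · intro a _ b _ hab
        exact (Finsupp.single_left_inj one_ne_zero).1 hab
  · intro h0
    obtain ⟨o, -, ho⟩ := mem_image.1 h0
    have := DFunLike.congr_fun ho o
    rw [Finsupp.single_eq_same] at this
    exact one_ne_zero this

variable {m : ℕ}

theorem jet_C_mul (j : ℕ) (a : ℝ) (H : MvPolynomial (Option (Fin m)) ℝ)
    (b v : Option (Fin m) → ℝ) : jet j (C a * H) b v = a * jet j H b v := by
  unfold jet
  rw [map_mul, aeval_C]
  have e1 : (algebraMap ℝ (Polynomial ℝ)) a = Polynomial.C a := rfl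
  rw [e1, Polynomial.iterate_derivative_C_mul, Polynomial.eval_mul, Polynomial.eval_C]

/-- The linear coefficient. -/
noncomputable def coe1 (o : Fin m) (H : MvPolynomial (Option (Fin m)) ℝ) : ℝ :=
  coeff (Finsupp.single (some o) 1) H

/-- A change of one coordinate. -/
theorem eval_upd {H : MvPolynomial (Option (Fin m)) ℝ} (h : H.totalDegree ≤ 1) (o : Fin m)
    {x x' : Option (Fin m) → ℝ} (hx : ∀ p, p ≠ some o → x p = x' p) :
    eval x' H - eval x H = coe1 o H * (x' (some o) - x (some o)) := by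
  classical
  rw [eval_one h, eval_one h, add_sub_add_left_eq_sub, ← Finset.sum_sub_distrib,
    Finset.sum_eq_single (some o)]
  · unfold coe1
    ring
  · intro p _ hp
    rw [hx p hp, sub_self]
  · intro h
    exact (h (mem_univ _)).elim

/-- One elimination. -/
noncomputable def el1 (o : Fin m) (a H : MvPolynomial (Option (Fin m)) ℝ) :
    MvPolynomial (Option (Fin m)) ℝ := H - C (coe1 o H) * (X (some o) - a)

theorem eval_el1 (o : Fin m) (a H : MvPolynomial (Option (Fin m)) ℝ)
    (x : Option (Fin m) → ℝ) :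
    eval x (el1 o a H) = eval x H - coe1 o H * (x (some o) - eval x a) := by
  simp only [el1, map_sub, map_mul, eval_C, eval_X]

theorem jet_el1 (o : Fin m) (a H : MvPolynomial (Option (Fin m)) ℝ) (j : ℕ)
    (b v : Option (Fin m) → ℝ) :
    jet j H b v = jet j (el1 o a H) b v + coe1 o H * jet j (X (some o) - a) b v := by
  unfold el1
  rw [jet_sub, jet_C_mul]
  ring

theorem deg_el1 {o : Fin m} {a H : MvPolynomial (Option (Fin m)) ℝ} (hH : H.totalDegree ≤ 1)
    (ha : a.totalDegree ≤ 1) : (el1 o a H).totalDegree ≤ 1 := by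
  unfold el1
  refine (totalDegree_sub _ _).trans (max_le hH ((totalDegree_mul _ _).trans ?_))
  rw [totalDegree_C, zero_add]
  exact (totalDegree_sub _ _).trans (max_le (by rw [totalDegree_X]) ha)

theorem dep_el1 {c : ℕ → Fin m} {n : ℕ} {a H : MvPolynomial (Option (Fin m)) ℝ}
    (hc : Set.InjOn c (Set.Iio (n + 1))) (hH : H.totalDegree ≤ 1) (hd : DepN c (n + 1) H)
    (ha : DepN c n a) : DepN c n (el1 (c n) a H) := by
  classical
  intro b b' h0 h1
  rw [eval_el1, eval_el1, ha b b' h0 h1]
  obtain ⟨b₂, hb₂⟩ : ∃ b₂, b₂ = Function.update b (some (c n)) (b' (some (c n))) := ⟨_, rfl⟩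
  have e1 : b₂ (some (c n)) = b' (some (c n)) := by
    rw [hb₂, Function.update_self]
  have e2 : ∀ p, p ≠ some (c n) → b p = b₂ p := fun p hp => by
    rw [hb₂, Function.update_of_ne hp]
  have e3 := eval_upd hH (c n) e2
  have e4 : eval b₂ H = eval b' H := by
    refine hd b₂ b' ?_ fun l hl => ?_
    · rw [← e2 none (by simp)]
      exact h0
    · rcases Nat.lt_or_ge l n with h | h
      · rw [← e2 (some (c l)) (fun e => ?_)]
        · exact h1 l h
        · have h2 := hc (show l ∈ Set.Iio (n + 1) from hl)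
            (show n ∈ Set.Iio (n + 1) from Nat.lt_succ_self n) (Option.some.inj e)
          omega
      · rw [show l = n by omega]
        exact e1
  rw [e4, e1] at e3
  linarith

/-- **The elimination** of the coordinates `c k₀, …, c (k₀ + n - 1)`. -/
noncomputable def elr (c : ℕ → Fin m) (a : ℕ → MvPolynomial (Option (Fin m)) ℝ) (k₀ : ℕ) :
    ℕ → MvPolynomial (Option (Fin m)) ℝ → MvPolynomial (Option (Fin m)) ℝ
  | 0, H => H
  | n + 1, H => elr c a k₀ n (el1 (c (k₀ + n)) (a (k₀ + n)) H)

/-- **The coefficients** of the heights. -/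
noncomputable def bet (c : ℕ → Fin m) (a : ℕ → MvPolynomial (Option (Fin m)) ℝ) (k₀ : ℕ) :
    ℕ → MvPolynomial (Option (Fin m)) ℝ → ℕ → ℝ
  | 0, _, _ => 0
  | n + 1, H, l => if l = n then coe1 (c (k₀ + n)) H else
      bet c a k₀ n (el1 (c (k₀ + n)) (a (k₀ + n)) H) l

/-- The jets along a line. -/
theorem jet_elr (c : ℕ → Fin m) (a : ℕ → MvPolynomial (Option (Fin m)) ℝ) (k₀ j : ℕ)
    (b v : Option (Fin m) → ℝ) (n : ℕ) (H : MvPolynomial (Option (Fin m)) ℝ) :
    jet j H b v = jet j (elr c a k₀ n H) b v +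
      ∑ l ∈ range n, bet c a k₀ n H l * jet j (X (some (c (k₀ + l))) - a (k₀ + l)) b v := by
  induction n generalizing H with
  | zero =>
    rw [Finset.sum_range_zero, add_zero]
    rfl
  | succ n ih =>
    have e1 : elr c a k₀ (n + 1) H = elr c a k₀ n (el1 (c (k₀ + n)) (a (k₀ + n)) H) := rfl
    have e2 : ∀ l ∈ range n, bet c a k₀ (n + 1) H l =
        bet c a k₀ n (el1 (c (k₀ + n)) (a (k₀ + n)) H) l := by
      intro l hl
      have : l ≠ n := by
        have := mem_range.1 hl
        omega
      show (if l = n then _ else _) = _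
      rw [if_neg this]
    have e3 : bet c a k₀ (n + 1) H n = coe1 (c (k₀ + n)) H := by
      show (if n = n then _ else _) = _
      rw [if_pos rfl]
    rw [Finset.sum_range_succ, e1, e3, Finset.sum_congr rfl fun l hl => by rw [e2 l hl],
      ← add_assoc, ← ih (el1 (c (k₀ + n)) (a (k₀ + n)) H)]
    exact jet_el1 _ _ _ _ _ _

/-- **The sizes after the elimination.** -/
theorem el_pt {J : ℕ} {F : Fam m J} {ω : F.Ω} {c : ℕ → Fin m} {r₀ k₀ U : ℕ}
    {a g : ℕ → MvPolynomial (Option (Fin m)) ℝ} {δ μ : ℕ → ℝ} {L : ℝ} (hk : r₀ ≤ k₀) (hL : 1 ≤ L)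
    (n : ℕ) (hc : Set.InjOn c (Set.Iio (k₀ + n)))
    (ha : ∀ l, k₀ ≤ l → l < k₀ + n → (a l).totalDegree ≤ 1 ∧ DepN c l (a l))
    (hg : ∀ l, r₀ ≤ l → l < k₀ + n → DepN c l (g l)) (hδ : ∀ l, k₀ ≤ l → l < k₀ + n → 0 < δ l)
    (hag : ∀ l, k₀ ≤ l → l < k₀ + n → ∀ x, NB F c r₀ l U δ g ω x → |eval x (a l - g l)| ≤ μ l)
    (hμ : ∀ l, k₀ ≤ l → l < k₀ + n → 1 + 2 * (μ l / δ l) ≤ L)
    (hne : ∃ x, NB F c r₀ (k₀ + n) U δ g ω x)
    (H : MvPolynomial (Option (Fin m)) ℝ) (hH : H.totalDegree ≤ 1) (hd : DepN c (k₀ + n) H)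
    {B : ℝ} (hB : 0 ≤ B) (hHB : ∀ x, NB F c r₀ (k₀ + n) U δ g ω x → |eval x H| ≤ B) :
    (elr c a k₀ n H).totalDegree ≤ 1 ∧ DepN c k₀ (elr c a k₀ n H) ∧
      (∀ x, NB F c r₀ k₀ U δ g ω x → |eval x (elr c a k₀ n H)| ≤ B * L ^ n) ∧
      ∀ l < n, |bet c a k₀ n H l| * δ (k₀ + l) ≤ 2 * (B * L ^ n) := by
  classical
  induction n generalizing H B with
  | zero =>
    refine ⟨hH, hd, fun x hx => ?_, fun l hl => absurd hl (Nat.not_lt_zero l)⟩
    rw [pow_zero, mul_one]
    exact hHB x hx
  | succ n ih =>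
    have e0 : k₀ + (n + 1) = k₀ + n + 1 := by ring
    obtain ⟨β, hβ⟩ : ∃ β, β = coe1 (c (k₀ + n)) H := ⟨_, rfl⟩
    have hδn := hδ (k₀ + n) (by omega) (by omega)
    have hcn : ∀ l < k₀ + n, c l ≠ c (k₀ + n) := fun l hl e => by
      have := hc (show l ∈ Set.Iio (k₀ + (n + 1)) from by simp; omega)
        (show k₀ + n ∈ Set.Iio (k₀ + (n + 1)) from by simp) e
      omega
    -- the two points
    have key : ∀ x, NB F c r₀ (k₀ + n) U δ g ω x → ∀ t : ℝ, |t| ≤ δ (k₀ + n) →
        |eval (Function.update x (some (c (k₀ + n))) (eval x (g (k₀ + n)) + t)) H| ≤ B := by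
      intro x hx t ht
      obtain ⟨y, hy⟩ : ∃ y, y = Function.update x (some (c (k₀ + n)))
        (eval x (g (k₀ + n)) + t) := ⟨_, rfl⟩
      rw [← hy]
      have y0 : y none = x none := by
        rw [hy, Function.update_of_ne (by simp)]
      have yl : ∀ l < k₀ + n, y (some (c l)) = x (some (c l)) := fun l hl => by
        rw [hy, Function.update_of_ne (fun e => hcn l hl (Option.some.inj e))]
      refine hHB y ⟨?_, fun l hl => ?_, fun i hi0 hi => ?_⟩
      · rw [y0]
        exact hx.1
      · rw [yl l (by omega)]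
        exact hx.2.1 l hl
      · have e1 : eval y (g i) = eval x (g i) :=
          hg i hi0 hi y x y0 fun l hl => yl l (by omega)
        rw [e1]
        rcases Nat.lt_or_ge i (k₀ + n) with h | h
        · rw [yl i h]
          exact hx.2.2 i hi0 h
        · have e2 : i = k₀ + n := by omega
          rw [e2]
          have e3 : y (some (c (k₀ + n))) = eval x (g (k₀ + n)) + t := by
            rw [hy, Function.update_self]
          rw [e3, add_sub_cancel_left]
          exact ht
    have hrs : ∀ x, NB F c r₀ (k₀ + (n + 1)) U δ g ω x → NB F c r₀ (k₀ + n) U δ g ω x :=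
      fun x hx => ⟨hx.1, hx.2.1, fun i hi0 hi => hx.2.2 i hi0 (by omega)⟩
    have hβx : ∀ x, NB F c r₀ (k₀ + n) U δ g ω x → |β| * δ (k₀ + n) ≤ 2 * B := by
      intro x hx
      have h1 := key x hx 0 (by rw [abs_zero]; exact hδn.le)
      have h2 := key x hx (δ (k₀ + n)) (by rw [abs_of_pos hδn])
      obtain ⟨y₁, hy₁⟩ : ∃ y, y = Function.update x (some (c (k₀ + n)))
        (eval x (g (k₀ + n)) + 0) := ⟨_, rfl⟩
      obtain ⟨y₂, hy₂⟩ : ∃ y, y = Function.update x (some (c (k₀ + n)))
        (eval x (g (k₀ + n)) + δ (k₀ + n)) := ⟨_, rfl⟩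
      rw [← hy₁] at h1
      rw [← hy₂] at h2
      have h3 := eval_upd hH (c (k₀ + n)) (x := y₁) (x' := y₂) fun p hp => by
        rw [hy₁, hy₂, Function.update_of_ne hp, Function.update_of_ne hp]
      have h4 : y₂ (some (c (k₀ + n))) - y₁ (some (c (k₀ + n))) = δ (k₀ + n) := by
        rw [hy₁, hy₂, Function.update_self, Function.update_self]
        ring
      rw [h4, ← hβ] at h3
      have h5 : |β| * δ (k₀ + n) = |eval y₂ H - eval y₁ H| := by
        rw [h3, abs_mul, abs_of_pos hδn]
      rw [h5]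
      refine (abs_sub _ _).trans ?_
      linarith
    have hβδ : |β| * δ (k₀ + n) ≤ 2 * B := by
      obtain ⟨x, hx⟩ := hne
      exact hβx x (hrs x hx)
    have hLn : B ≤ B * L ^ n := le_mul_of_one_le_right hB (one_le_pow₀ hL)
    -- the next polynomial
    have hH' : ∀ x, NB F c r₀ (k₀ + n) U δ g ω x →
        |eval x (el1 (c (k₀ + n)) (a (k₀ + n)) H)| ≤ B * L := by
      intro x hx
      have h1 := key x hx 0 (by rw [abs_zero]; exact hδn.le)
      obtain ⟨y, hy⟩ : ∃ y, y = Function.update x (some (c (k₀ + n)))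
        (eval x (g (k₀ + n)) + 0) := ⟨_, rfl⟩
      rw [← hy] at h1
      have hdep := dep_el1 (c := c) (n := k₀ + n) (a := a (k₀ + n)) (H := H) (by
        rw [← e0]
        exact hc) hH (by rw [← e0]; exact hd) (ha (k₀ + n) (by omega) (by omega)).2
      have y0 : y none = x none := by
        rw [hy, Function.update_of_ne (by simp)]
      have yl : ∀ l < k₀ + n, y (some (c l)) = x (some (c l)) := fun l hl => by
        rw [hy, Function.update_of_ne (fun e => hcn l hl (Option.some.inj e))]
      rw [← hdep y x y0 yl, eval_el1, ← hβ]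
      have h2 : eval y (a (k₀ + n)) = eval x (a (k₀ + n)) :=
        (ha (k₀ + n) (by omega) (by omega)).2 y x y0 yl
      have h3 : y (some (c (k₀ + n))) = eval x (g (k₀ + n)) := by
        rw [hy, Function.update_self, add_zero]
      have h4 := hag (k₀ + n) (by omega) (by omega) x hx
      rw [map_sub, abs_sub_comm] at h4
      rw [h2, h3]
      have h5 : |β * (eval x (g (k₀ + n)) - eval x (a (k₀ + n)))| ≤
          2 * B * (μ (k₀ + n) / δ (k₀ + n)) := by
        rw [abs_mul]
        have h6 : |β| * |eval x (g (k₀ + n)) - eval x (a (k₀ + n))| ≤ |β| * μ (k₀ + n) :=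
          mul_le_mul_of_nonneg_left h4 (abs_nonneg _)
        have h7 : |β| * μ (k₀ + n) = (|β| * δ (k₀ + n)) * (μ (k₀ + n) / δ (k₀ + n)) := by
          field_simp
        have h8 : 0 ≤ μ (k₀ + n) / δ (k₀ + n) :=
          div_nonneg ((abs_nonneg _).trans h4) hδn.le
        rw [h7] at h6
        exact h6.trans (mul_le_mul_of_nonneg_right hβδ h8)
      refine (abs_sub _ _).trans ?_
      have h6 := mul_le_mul_of_nonneg_left (hμ (k₀ + n) (by omega) (by omega)) hB
      linarith
    have hd' : DepN c (k₀ + n) (el1 (c (k₀ + n)) (a (k₀ + n)) H) :=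
      dep_el1 (by rw [← e0]; exact hc) hH (by rw [← e0]; exact hd)
        (ha (k₀ + n) (by omega) (by omega)).2
    obtain ⟨i1, i2, i3, i4⟩ := ih (hc.mono (fun x hx => by
      simp only [Set.mem_Iio] at hx ⊢
      omega)) (fun l h1 h2 => ha l h1 (by omega)) (fun l h1 h2 => hg l h1 (by omega))
      (fun l h1 h2 => hδ l h1 (by omega)) (fun l h1 h2 => hag l h1 (by omega))
      (fun l h1 h2 => hμ l h1 (by omega)) (by
        obtain ⟨x, hx⟩ := hne
        exact ⟨x, hrs x hx⟩) _ (deg_el1 hH (ha (k₀ + n) (by omega) (by omega)).1) hd'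
      (B := B * L) (mul_nonneg hB (by linarith)) hH'
    have e1 : B * L * L ^ n = B * L ^ (n + 1) := by ring
    rw [e1] at i3 i4
    refine ⟨i1, i2, i3, fun l hl => ?_⟩
    have hLn1 : B ≤ B * L ^ (n + 1) := le_mul_of_one_le_right hB (one_le_pow₀ hL)
    rcases Nat.lt_or_ge l n with h | h
    · have e2 : bet c a k₀ (n + 1) H l = bet c a k₀ n (el1 (c (k₀ + n)) (a (k₀ + n)) H) l := by
        show (if l = n then _ else _) = _
        rw [if_neg (by omega)]
      rw [e2]
      exact i4 l h
    · have e2 : l = n := by omega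
      have e3 : bet c a k₀ (n + 1) H n = coe1 (c (k₀ + n)) H := by
        show (if n = n then _ else _) = _
        rw [if_pos rfl]
      rw [e2, e3, ← hβ]
      linarith

end Pool.FVL91
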