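import Pool.Agent.H91.T4.Af1
import Pool.Agent.H91.LA.TwoN

/-!
# The velocities of the targets over affine labels

`few_af`: the jet over another affine label. `few_vel`: the jets of the targets over other affine
labels, given the jets of the slope-one places and the old ones. `few_vel0`: without slope-one places
behind the base, no loss and no margin. `exs_vel`, `few_jv`.
-/

set_option autoImplicit false

namespace Pool.FVL91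

open Finset Real MvPolynomial
open Pool.Agent.H49.Ent Pool.Agent.H32.Dense Pool.STK Pool.KA Pool.KSAT Pool.K2S Pool.PB Pool.GEN
open Pool.S6C Pool.RCD Pool.LA91
open Pool.GRD (LbP)

variable {m : ℕ} {U : Type} {α β γ : ∀ J : ℕ, Fam m J → Type}
  {f : ∀ (J : ℕ) (F : Fam m J), F.Ω → α J F} {g : ∀ (J : ℕ) (F : Fam m J), F.Ω → β J F}
  {y : ∀ (J : ℕ) (F : Fam m J), F.Ω → γ J F} {S : PCl m}

/-- The jets of all the targets are few bits if the jets of each of them are. -/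
theorem few_qvel
    (hpos : ∀ (τ : ℝ) (J : ℕ) (F : Fam m J) (A : F.Ω → Prop), S.St τ J F A → 0 < Pe F.p A)
    {Q : Qt m U} {c : ℕ → Fin m} {k₀ n j : ℕ} {w p N : ℕ → ℝ}
    (h : ∀ l < n, Few S f g y Q
      (qAf m ((range (k₀ + l)).image c) (c (k₀ + l)) j (w l) (p l) (N l))) :
    Few S f g y Q (qVel m c k₀ n j w p N) := by
  intro ε hε
  obtain ⟨e₀, he₀, H⟩ := few_fin hpos (Q' := fun l => qAf m ((range (k₀ + l)).image c)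
    (c (k₀ + l)) j (w l) (p l) (N l)) h ε hε
  refine ⟨e₀, he₀, fun K => Bas.mono 0 ((H K).and (pos_bas hpos)) ?_⟩
  rintro J - F A ⟨H, hA⟩ u u' hu ⟨hu', hz⟩
  have hcl := isLaw_cond F.isLaw hA
  obtain ⟨V, z, hzc, h1⟩ := H u (fun l ω => u' ω l) hu hu'
  refine ⟨V, z, hzc, le_trans (CH_mono_left hcl.nonneg fun ω ω' hω hω' hh => ?_) h1⟩
  have h2 := (Prod.ext_iff.mp hh).1
  funext l
  rcases Nat.lt_or_ge l n with h3 | h3
  · exact congrFun h2 ⟨l, h3⟩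
  · rw [hz ω (of_cond_pos hω) l (by omega), hz ω' (of_cond_pos hω') l (by omega)]

/-- Fewer targets. -/
theorem qVel_take {c : ℕ → Fin m} {k₀ n n' j : ℕ} {w p N : ℕ → ℝ} (hn : n' ≤ n)
    {K : ℕ} {e : ℝ} {J : ℕ} {F : Fam m J} {A : F.Ω → Prop} {u : F.Ω → ℕ → ℤ}
    (h : (qVel m c k₀ n j w p N).P K e J F A u) :
    (qVel m c k₀ n' j w p N).P K e J F A (fun ω l => if l < n' then u ω l else 0) := by
  refine ⟨fun l hl => ?_, fun ω _ l hl => if_neg hl⟩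
  have h1 := h.1 l (by omega)
  have h2 : (fun ω => if l < n' then u ω l else 0) = fun ω => u ω l := by
    funext ω
    exact if_pos hl
  rw [h2]
  exact h1

/-- **Another affine label.** -/
theorem few_af {C₀ : ℝ} (htm : TmC S C₀) {c : ℕ → Fin m} {r₀ k₀ n : ℕ}
    (hk0 : r₀ ≤ k₀) {w u₀ u₁ : ℝ} {s rd : ℕ → ℝ} (hch : Chn S c r₀ (k₀ + n) w u₀ u₁ s rd)
    {k : Fin m} {j : ℕ} {wv pv Nv : ℕ → ℕ → ℝ} {lv wt pt Nt : ℕ → ℝ}
    {w₁ w₂ p₁ p₂ N₁ N₂ p₀ lam σ₀ θ : ℝ}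
    (hwv : ∀ i, r₀ ≤ i → i < k₀ → ∀ j' ≤ j, wv i j' ≤ w)
    (hwt : ∀ l < n, wt l ≤ w) (hw₁ : w₁ ≤ w) (hw₂ : w₂ ≤ w)
    (hu0 : u₀ < p₀) (hp0 : p₀ ≤ 1) (hlam : 0 < lam) (hσ₀ : 0 < σ₀)
    (hθ : 0 ≤ θ) (hpt : ∀ l < n, s (k₀ + l) ≤ pt l + θ)
    (hlv : ∀ i, r₀ ≤ i → i < k₀ → 0 < lv i)
    (h1 : ∀ i, r₀ ≤ i → i < k₀ → ∀ j' ≤ j, s i + lv i + σ₀ ≤ Nv i j' + j' * u₀)
    (h2 : ∀ i, r₀ ≤ i → i < k₀ → ∀ j' ≤ j,
      s i + lv i + σ₀ ≤ min (pv i j') (s i) + min lam (p₀ - u₀))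
    (h2' : ∀ i, r₀ ≤ i → i < k₀ → ∀ j' ≤ j, ∀ l, r₀ ≤ l → l < i →
      s i + lv i + σ₀ ≤ min (pv i j') (s i) + lv l)
    (hN : N₂ ≤ N₁)
    (h3 : N₂ + j * u₀ + n * θ + σ₀ ≤ min p₁ p₂ + min lam (p₀ - u₀))
    (h3' : ∀ l, r₀ ≤ l → l < k₀ → N₂ + j * u₀ + n * θ + σ₀ ≤ min p₁ p₂ + lv l)
    (h4 : ∀ l < n, N₂ + s (k₀ + l) + n * θ + σ₀ ≤ min p₁ p₂ + Nt l)
    (hf : ∀ (J : ℕ) (F : Fam m J), ∃ φ : α J F → PtT F, ∀ ω, ptr F J ω = φ (f J F ω))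
    (hy : Kn ((range r₀).image c) p₀ lam y) :
    Few S f (vg w) y (((qJets m c r₀ k₀ j wv pv Nv).prod (qVel m c k₀ n j wt pt Nt)).prod
      (qAf m ((range (k₀ + n)).image c) k j w₁ p₁ N₁))
      (qAf m ((range (k₀ + n)).image c) k j w₂ p₂ N₂) := by
  intro h hh
  refine ⟨σ₀ / (16 * ((n : ℝ) + 1)), by positivity, fun K => Bas.mono 0 (few_af_e htm hk0 hch
    (k := k) (j := j) (wv := wv) (pv := pv) (Nv := Nv) (lv := lv) (wt := wt) (pt := pt)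
    (Nt := Nt) (w₁ := w₁) (w₂ := w₂) (p₁ := p₁) (p₂ := p₂) (N₁ := N₁) (N₂ := N₂)
    (κ := -σ₀) rfl hwv hwt hw₁ hw₂ hu0
    hp0 hlam hσ₀ (by linarith) hθ hpt hlv h1 h2 h2' hN (by linarith)
    (fun l a b => by linarith [h3' l a b]) (fun l a => by linarith [h4 l a]) hf hy hh K) ?_⟩
  rintro J - F A H u u' ⟨⟨hu1, hu2⟩, hu3⟩ hu'
  obtain ⟨V, z, hz, hH⟩ := H (fun ω => (u ω).1.1) (fun ω => (u ω).1.2) (fun ω => (u ω).2) u'
    hu1 hu2 hu3 hu'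
  refine ⟨V, z, hz, hH.trans (le_of_eq ?_)⟩
  ring

/-- **Another affine label**, without slope-one places behind the base: no loss, no margin. -/
theorem few_af0 {C₀ : ℝ} (htm : TmC S C₀) {c : ℕ → Fin m} {k₀ n : ℕ}
    {w u₀ u₁ : ℝ} {s rd : ℕ → ℝ} (hch : Chn S c k₀ (k₀ + n) w u₀ u₁ s rd)
    (hpos : ∀ (τ : ℝ) (J : ℕ) (F : Fam m J) (A : F.Ω → Prop), S.St τ J F A → 0 < Pe F.p A)
    {k : Fin m} {j : ℕ} {wt pt Nt : ℕ → ℝ} {w₁ w₂ p₁ p₂ N₁ N₂ p₀ lam : ℝ}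
    (hwt : ∀ l < n, wt l ≤ w) (hw₁ : w₁ ≤ w) (hw₂ : w₂ ≤ w)
    (hu0 : u₀ < p₀) (hp0 : p₀ ≤ 1) (hlam : 0 < lam) (hpt : ∀ l < n, s (k₀ + l) ≤ pt l)
    (hN : N₂ ≤ N₁) (h3 : N₂ + j * u₀ ≤ min p₁ p₂ + min lam (p₀ - u₀))
    (h4 : ∀ l < n, N₂ + s (k₀ + l) ≤ min p₁ p₂ + Nt l)
    (hf : ∀ (J : ℕ) (F : Fam m J), ∃ φ : α J F → PtT F, ∀ ω, ptr F J ω = φ (f J F ω))
    (hy : Kn ((range k₀).image c) p₀ lam y) :
    Few S f (vg w) y ((qVel m c k₀ n j wt pt Nt).prod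
      (qAf m ((range (k₀ + n)).image c) k j w₁ p₁ N₁))
      (qAf m ((range (k₀ + n)).image c) k j w₂ p₂ N₂) := by
  intro h hh
  have hn0 : (0 : ℝ) ≤ n := Nat.cast_nonneg n
  refine ⟨h / 2 / (16 * ((n : ℝ) + 1)), by positivity, fun K => Bas.mono 0 ((few_af_e htm le_rfl hch
    (k := k) (j := j) (wv := fun _ _ => 0) (pv := fun _ _ => 0) (Nv := fun _ _ => 0)
    (lv := fun _ => 0) (wt := wt) (pt := pt) (Nt := Nt) (w₁ := w₁) (w₂ := w₂) (p₁ := p₁) (p₂ := p₂) (N₁ := N₁) (N₂ := N₂)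
    (κ := 0) (θ := 0) (σ₀ := h / 2) rfl (fun i a b => absurd a (not_le.2 b)) hwt hw₁ hw₂ hu0
    hp0 hlam (half_pos hh) (by linarith) le_rfl (fun l a => by linarith [hpt l a])
    (fun i a b => absurd a (not_le.2 b)) (fun i a b => absurd a (not_le.2 b))
    (fun i a b => absurd a (not_le.2 b)) (fun i a b => absurd a (not_le.2 b)) hN (by linarith)
    (fun i a b => absurd a (not_le.2 b)) (fun l a => by linarith [h4 l a]) hf hy (half_pos hh)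
    K).and (pos_bas hpos)) ?_⟩
  rintro J - F A ⟨H, hA⟩ u u' ⟨hu2, hu3⟩ hu'
  obtain ⟨V, z, hz, hH⟩ := H (fun _ _ _ => 0) (fun ω => (u ω).1) (fun ω => (u ω).2) u'
    ⟨fun i a b => absurd a (not_le.2 b), fun _ _ _ _ _ => rfl⟩ hu2 hu3 hu'
  refine ⟨V, z, hz, (CH_mono_cond (isLaw_cond F.isLaw hA).nonneg ?_).trans
    (hH.trans (le_of_eq (by ring)))⟩
  intro ω ω' _ _ hh
  simp only [Prod.mk.injEq] at hh ⊢
  exact ⟨⟨⟨trivial, by rw [hh.1]⟩, by rw [hh.1]⟩, hh.2⟩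

/-- **The velocities of the targets over other affine labels.** -/
theorem few_vel {C₀ : ℝ} (htm : TmC S C₀)
    (hpos : ∀ (τ : ℝ) (J : ℕ) (F : Fam m J) (A : F.Ω → Prop), S.St τ J F A → 0 < Pe F.p A)
    {c : ℕ → Fin m} {r₀ k₀ n : ℕ}
    (hk0 : r₀ ≤ k₀) {w u₀ u₁ : ℝ} {s rd : ℕ → ℝ} (hch : Chn S c r₀ (k₀ + n) w u₀ u₁ s rd)
    {j : ℕ} {wv pv Nv : ℕ → ℕ → ℝ} {lv wt pt Nt wt' pt' Nt' : ℕ → ℝ} {p₀ lam σ₀ θ : ℝ}
    (hwv : ∀ i, r₀ ≤ i → i < k₀ → ∀ j' ≤ j, wv i j' ≤ w)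
    (hwt : ∀ l < n, wt l ≤ w) (hwt' : ∀ l < n, wt' l ≤ w)
    (hu0 : u₀ < p₀) (hp0 : p₀ ≤ 1) (hlam : 0 < lam) (hσ₀ : 0 < σ₀)
    (hθ : 0 ≤ θ) (hpt : ∀ l < n, s (k₀ + l) ≤ pt l + θ)
    (hlv : ∀ i, r₀ ≤ i → i < k₀ → 0 < lv i)
    (h1 : ∀ i, r₀ ≤ i → i < k₀ → ∀ j' ≤ j, s i + lv i + σ₀ ≤ Nv i j' + j' * u₀)
    (h2 : ∀ i, r₀ ≤ i → i < k₀ → ∀ j' ≤ j,
      s i + lv i + σ₀ ≤ min (pv i j') (s i) + min lam (p₀ - u₀))
    (h2' : ∀ i, r₀ ≤ i → i < k₀ → ∀ j' ≤ j, ∀ l, r₀ ≤ l → l < i →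
      s i + lv i + σ₀ ≤ min (pv i j') (s i) + lv l)
    (hN : ∀ l < n, Nt' l ≤ Nt l)
    (h3 : ∀ l < n, Nt' l + j * u₀ + l * θ + σ₀ ≤ min (pt l) (pt' l) + min lam (p₀ - u₀))
    (h3' : ∀ l < n, ∀ i, r₀ ≤ i → i < k₀ →
      Nt' l + j * u₀ + l * θ + σ₀ ≤ min (pt l) (pt' l) + lv i)
    (h4 : ∀ l < n, ∀ i < l, Nt' l + s (k₀ + i) + l * θ + σ₀ ≤ min (pt l) (pt' l) + Nt i)
    (hf : ∀ (J : ℕ) (F : Fam m J), ∃ φ : α J F → PtT F, ∀ ω, ptr F J ω = φ (f J F ω))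
    (hy : Kn ((range r₀).image c) p₀ lam y) :
    Few S f (vg w) y ((qJets m c r₀ k₀ j wv pv Nv).prod (qVel m c k₀ n j wt pt Nt))
      (qVel m c k₀ n j wt' pt' Nt') := by
  refine few_qvel hpos fun l hl => ?_
  have key := few_af htm hk0 (hch.take (n := k₀ + l) (by omega) (by omega)) (k := c (k₀ + l))
    (j := j) (wv := wv) (pv := pv) (Nv := Nv) (lv := lv) (wt := wt) (pt := pt) (Nt := Nt)
    (w₁ := wt l) (w₂ := wt' l) (p₁ := pt l) (p₂ := pt' l) (N₁ := Nt l) (N₂ := Nt' l)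
    (p₀ := p₀) (lam := lam) (σ₀ := σ₀) (θ := θ) (f := f) (y := y)
    hwv (fun i hi => hwt i (by omega)) (hwt l hl) (hwt' l hl) hu0 hp0 hlam hσ₀ hθ
    (fun i hi => hpt i (by omega)) hlv h1 h2 h2' (hN l hl) (h3 l hl) (h3' l hl) (h4 l hl) hf hy
  intro h hh
  obtain ⟨e, he, H⟩ := key h hh
  refine ⟨e, he, fun K => Bas.mono 0 ((H K).and (pos_bas hpos)) ?_⟩
  rintro J - F A ⟨H, hA⟩ u u' hu hu'
  obtain ⟨V, z, hz, h1⟩ := H (fun ω => (((u ω).1, fun i => if i < l then (u ω).2 i else 0),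
    (u ω).2 l)) u' ⟨⟨hu.1, qVel_take hl.le hu.2⟩, hu.2.1 l hl⟩ hu'
  refine ⟨V, z, hz, le_trans (CH_mono_cond (isLaw_cond F.isLaw hA).nonneg ?_) h1⟩
  intro ω ω' _ _ hh
  simp only [Prod.mk.injEq] at hh ⊢
  exact ⟨⟨⟨by rw [hh.1], by rw [hh.1]⟩, by rw [hh.1]⟩, hh.2⟩

/-- **The velocities of the targets over other affine labels**, without slope-one places behind the
base: no loss, no margin. -/
theorem few_vel0 {C₀ : ℝ} (htm : TmC S C₀)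
    (hpos : ∀ (τ : ℝ) (J : ℕ) (F : Fam m J) (A : F.Ω → Prop), S.St τ J F A → 0 < Pe F.p A)
    {c : ℕ → Fin m} {k₀ n : ℕ}
    {w u₀ u₁ : ℝ} {s rd : ℕ → ℝ} (hch : Chn S c k₀ (k₀ + n) w u₀ u₁ s rd)
    {j : ℕ} {wt pt Nt wt' pt' Nt' : ℕ → ℝ} {p₀ lam : ℝ}
    (hwt : ∀ l < n, wt l ≤ w) (hwt' : ∀ l < n, wt' l ≤ w)
    (hu0 : u₀ < p₀) (hp0 : p₀ ≤ 1) (hlam : 0 < lam) (hpt : ∀ l < n, s (k₀ + l) ≤ pt l)
    (hN : ∀ l < n, Nt' l ≤ Nt l)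
    (h3 : ∀ l < n, Nt' l + j * u₀ ≤ min (pt l) (pt' l) + min lam (p₀ - u₀))
    (h4 : ∀ l < n, ∀ i < l, Nt' l + s (k₀ + i) ≤ min (pt l) (pt' l) + Nt i)
    (hf : ∀ (J : ℕ) (F : Fam m J), ∃ φ : α J F → PtT F, ∀ ω, ptr F J ω = φ (f J F ω))
    (hy : Kn ((range k₀).image c) p₀ lam y) :
    Few S f (vg w) y (qVel m c k₀ n j wt pt Nt) (qVel m c k₀ n j wt' pt' Nt') := by
  refine few_qvel hpos fun l hl => ?_
  have key := few_af0 htm (hch.take (n := k₀ + l) (by omega) (by omega)) hpos (k := c (k₀ + l))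
    (j := j) (wt := wt) (pt := pt) (Nt := Nt)
    (w₁ := wt l) (w₂ := wt' l) (p₁ := pt l) (p₂ := pt' l) (N₁ := Nt l) (N₂ := Nt' l)
    (p₀ := p₀) (lam := lam) (f := f) (y := y)
    (fun i hi => hwt i (by omega)) (hwt l hl) (hwt' l hl) hu0 hp0 hlam
    (fun i hi => hpt i (by omega)) (hN l hl) (h3 l hl) (h4 l hl) hf hy
  intro h hh
  obtain ⟨e, he, H⟩ := key h hh
  refine ⟨e, he, fun K => Bas.mono 0 ((H K).and (pos_bas hpos)) ?_⟩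
  rintro J - F A ⟨H, hA⟩ u u' hu hu'
  obtain ⟨V, z, hz, h1⟩ := H (fun ω => ((fun i => if i < l then u ω i else 0), u ω l)) u'
    ⟨qVel_take hl.le hu, hu.1 l hl⟩ hu'
  refine ⟨V, z, hz, le_trans (CH_mono_cond (isLaw_cond F.isLaw hA).nonneg ?_) h1⟩
  intro ω ω' _ _ hh
  simp only [Prod.mk.injEq] at hh ⊢
  exact ⟨⟨by rw [hh.1], by rw [hh.1]⟩, hh.2⟩

/-- **The jets of the slope-one places and of the targets** over other labels. -/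
theorem few_jv {C₀ : ℝ} (htm : TmC S C₀)
    (hpos : ∀ (τ : ℝ) (J : ℕ) (F : Fam m J) (A : F.Ω → Prop), S.St τ J F A → 0 < Pe F.p A)
    {c : ℕ → Fin m} {r₀ k₀ n : ℕ}
    (hk0 : r₀ ≤ k₀) {w u₀ u₁ : ℝ} {s rd : ℕ → ℝ} (hch : Chn S c r₀ (k₀ + n) w u₀ u₁ s rd)
    {j : ℕ} {wv pv Nv wv' pv' Nv' : ℕ → ℕ → ℝ} {lv wt pt Nt wt' pt' Nt' : ℕ → ℝ}
    {p₀ lam σ₀ θ : ℝ}
    (hwv : ∀ i, r₀ ≤ i → i < k₀ → ∀ j' ≤ j, wv i j' ≤ w)
    (hwv' : ∀ i, r₀ ≤ i → i < k₀ → ∀ j' ≤ j, wv' i j' ≤ w)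
    (hwt : ∀ l < n, wt l ≤ w) (hwt' : ∀ l < n, wt' l ≤ w)
    (hu0 : u₀ < p₀) (hp0 : p₀ ≤ 1) (hlam : 0 < lam) (hσ₀ : 0 < σ₀)
    (hθ : 0 ≤ θ) (hpt : ∀ l < n, s (k₀ + l) ≤ pt l + θ)
    (hlv : ∀ i, r₀ ≤ i → i < k₀ → 0 < lv i)
    (h1 : ∀ i, r₀ ≤ i → i < k₀ → ∀ j' ≤ j, s i + lv i + σ₀ ≤ Nv i j' + j' * u₀)
    (h2 : ∀ i, r₀ ≤ i → i < k₀ → ∀ j' ≤ j,
      s i + lv i + σ₀ ≤ min (pv i j') (s i) + min lam (p₀ - u₀))
    (h2' : ∀ i, r₀ ≤ i → i < k₀ → ∀ j' ≤ j, ∀ l, r₀ ≤ l → l < i →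
      s i + lv i + σ₀ ≤ min (pv i j') (s i) + lv l)
    (hNv : ∀ i, r₀ ≤ i → i < k₀ → ∀ j' ≤ j, Nv' i j' ≤ Nv i j')
    (g3 : ∀ i, r₀ ≤ i → i < k₀ → ∀ j' ≤ j,
      Nv' i j' + j' * u₀ + σ₀ ≤ min (pv i j') (pv' i j') + min lam (p₀ - u₀))
    (g3' : ∀ i, r₀ ≤ i → i < k₀ → ∀ j' ≤ j, ∀ l, r₀ ≤ l → l < i →
      Nv' i j' + j' * u₀ + σ₀ ≤ min (pv i j') (pv' i j') + lv l)
    (hN : ∀ l < n, Nt' l ≤ Nt l)
    (h3 : ∀ l < n, Nt' l + j * u₀ + l * θ + σ₀ ≤ min (pt l) (pt' l) + min lam (p₀ - u₀))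
    (h3' : ∀ l < n, ∀ i, r₀ ≤ i → i < k₀ →
      Nt' l + j * u₀ + l * θ + σ₀ ≤ min (pt l) (pt' l) + lv i)
    (h4 : ∀ l < n, ∀ i < l, Nt' l + s (k₀ + i) + l * θ + σ₀ ≤ min (pt l) (pt' l) + Nt i)
    (hf : ∀ (J : ℕ) (F : Fam m J), ∃ φ : α J F → PtT F, ∀ ω, ptr F J ω = φ (f J F ω))
    (hy : Kn ((range r₀).image c) p₀ lam y) :
    Few S f (vg w) y ((qJets m c r₀ k₀ j wv pv Nv).prod (qVel m c k₀ n j wt pt Nt))
      ((qJets m c r₀ k₀ j wv' pv' Nv').prod (qVel m c k₀ n j wt' pt' Nt')) :=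
  Few.pair hpos (Few.fst hpos (few_jets htm hpos (hch.take (n := k₀) hk0 (by omega)) hwv hwv' hu0
    hp0 hlam hσ₀ hlv h1 h2 h2' hNv g3 g3' hf hy))
    (few_vel htm hpos hk0 hch hwv hwt hwt' hu0 hp0 hlam hσ₀ hθ hpt hlv h1 h2 h2' hN h3 h3' h4 hf hy)

/-- At the record of a later window. -/
theorem Few.late {U' : Type} {Q : Qt m U} {Q' : Qt m U'}
    (hpos : ∀ (τ : ℝ) (J : ℕ) (F : Fam m J) (A : F.Ω → Prop), S.St τ J F A → 0 < Pe F.p A)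
    {w x : ℝ} (hwx : w ≤ x) (hx : x ≤ 1) (h : Few S f (vg w) y Q Q') : Few S f (vg x) y Q Q' :=
  Few.up hpos (fun _ _ => ⟨fun a => a, fun _ => rfl⟩) (fun J F => vg_mono hwx hx J F)
    (fun _ _ => ⟨fun a => a, fun _ => rfl⟩) h

/-- **Existence**: `h` is `AffL S I k b p` of H71/CDX. -/
theorem exs_af {I : Finset (Fin m)} {k : Fin m} {j : ℕ} {b w p N : ℝ} (hbw : b ≤ w) (hw1 : w ≤ 1)
    (h : ∀ e : ℝ, 0 < e → Bas S (fun J F A => ∃ (V : Type) (z : PtT F → V) (z' : LnT F → V)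
      (G : V → MvPolynomial (Option (Fin m)) ℝ),
      LbP F I k 1 J ⌊b * J⌋₊ ⌊(p - e) * J⌋₊ A z z' G)) : Exs S (qAf m I k j w p N) := by
  intro e he
  refine ⟨0, |N| + j + 4, Bas.mono 1 (h e he) ?_⟩
  rintro J hJ F A ⟨V, z, z', G, hl⟩
  have hJ0 : (0 : ℝ) ≤ J := Nat.cast_nonneg J
  have hwJ : ⌊w * (J : ℝ)⌋₊ ≤ J := floor_le hw1 J
  have hbJ : ⌊b * (J : ℝ)⌋₊ ≤ ⌊w * J⌋₊ := Nat.floor_le_floor (mul_le_mul_of_nonneg_right hbw hJ0)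
  have hl' := hl.win hbJ hwJ
  exact ⟨_, ⟨V, z, _, G, hl', fun ω _ => rfl⟩, cnt_cfl hJ fun ω _ => rfl⟩

/-- **Existence.** -/
theorem exs_vel {c : ℕ → Fin m} {k₀ n j : ℕ} {b w p N : ℕ → ℝ}
    (hbw : ∀ l < n, b l ≤ w l ∧ w l ≤ 1)
    (h : ∀ l < n, ∀ e : ℝ, 0 < e → Bas S (fun J F A => ∃ (V : Type) (z : PtT F → V)
      (z' : LnT F → V) (G : V → MvPolynomial (Option (Fin m)) ℝ),
      LbP F ((range (k₀ + l)).image c) (c (k₀ + l)) 1 J ⌊b l * J⌋₊ ⌊(p l - e) * J⌋₊ A z z' G)) :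
    Exs S (qVel m c k₀ n j w p N) := by
  classical
  intro e he
  obtain ⟨K, M, H⟩ := exs_fin (Q' := fun l => qAf m ((range (k₀ + l)).image c)
    (c (k₀ + l)) j (w l) (p l) (N l)) (fun l hl => exs_af (hbw l hl).1 (hbw l hl).2 (h l hl)) e he
  refine ⟨K, M, Bas.mono 0 H ?_⟩
  rintro J - F A ⟨X, hX, hc⟩
  refine ⟨fun ω l => if l < n then X l ω else 0, ⟨fun l hl => ?_, fun ω _ l hl => if_neg hl⟩, ?_⟩
  · have h2 : (fun ω => if l < n then X l ω else 0) = X l := by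
      funext ω
      exact if_pos hl
    rw [h2]
    exact hX l hl
  · refine le_trans ?_ hc
    have h1 := cnt_comp_le F.p (fun ω (l : Fin n) => X l ω)
      (fun ω l => if l < n then X l ω else 0) (A := A)
      (fun q l => if h : l < n then q ⟨l, h⟩ else 0) (by
      intro ω _ _
      funext l
      by_cases hl : l < n
      · rw [if_pos hl, dif_pos hl]
      · rw [if_neg hl, dif_neg hl])
    exact_mod_cast h1

/-- The count of `exs_vel` with the explicit rate. -/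
theorem exs_vel' {c : ℕ → Fin m} {k₀ n j : ℕ} {b w p N : ℕ → ℝ}
    (hbw : ∀ l < n, b l ≤ w l ∧ w l ≤ 1)
    (h : ∀ l < n, ∀ e : ℝ, 0 < e → Bas S (fun J F A => ∃ (V : Type) (z : PtT F → V)
      (z' : LnT F → V) (G : V → MvPolynomial (Option (Fin m)) ℝ),
      LbP F ((range (k₀ + l)).image c) (c (k₀ + l)) 1 J ⌊b l * J⌋₊ ⌊(p l - e) * J⌋₊ A z z' G))
    (e : ℝ) (he : 0 < e) :
    Bas S (fun J F A => ∃ u, (qVel m c k₀ n j w p N).P 0 e J F A u ∧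
      (cnt F.p u A : ℝ) ≤ Real.exp ((∑ l ∈ range n, (|N l| + j + 4)) * J)) := by
  classical
  have hall : Bas S (fun J F A => ∀ l < n, ∃ (V : Type) (z : PtT F → V)
      (z' : LnT F → V) (G : V → MvPolynomial (Option (Fin m)) ℝ),
      LbP F ((range (k₀ + l)).image c) (c (k₀ + l)) 1 J ⌊b l * J⌋₊ ⌊(p l - e) * J⌋₊ A z z' G) :=
    Bas.all n fun l hl => h l hl e he
  refine Bas.mono 1 hall ?_
  rintro J hJ F A H
  have hJ0 : (0 : ℝ) ≤ J := Nat.cast_nonneg J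
  have hex : ∀ l, ∃ X : F.Ω → ℤ, l < n → (qAf m ((range (k₀ + l)).image c)
      (c (k₀ + l)) j (w l) (p l) (N l)).P 0 e J F A X ∧
      (cnt F.p X A : ℝ) ≤ Real.exp ((|N l| + j + 4) * J) := by
    intro l
    by_cases hl : l < n
    · obtain ⟨V, z, z', G, hl1⟩ := H l hl
      have hwJ : ⌊w l * (J : ℝ)⌋₊ ≤ J := floor_le (hbw l hl).2 J
      have hbJ : ⌊b l * (J : ℝ)⌋₊ ≤ ⌊w l * J⌋₊ := Nat.floor_le_floor
        (mul_le_mul_of_nonneg_right (hbw l hl).1 hJ0)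
      have hl' := hl1.win hbJ hwJ
      exact ⟨_, fun _ => ⟨⟨V, z, _, G, hl', fun ω _ => rfl⟩, cnt_cfl hJ fun ω _ => rfl⟩⟩
    · exact ⟨fun _ => 0, fun h => absurd h hl⟩
  choose X hX using hex
  refine ⟨fun ω l => if l < n then X l ω else 0, ⟨fun l hl => ?_, fun ω _ l hl => if_neg hl⟩, ?_⟩
  · have h2 : (fun ω => if l < n then X l ω else 0) = X l := by
      funext ω
      exact if_pos hl
    rw [h2]
    exact (hX l hl).1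
  · have key : ∀ q ≤ n, (cnt F.p (fun ω (l : ℕ) => if l < q then X l ω else 0) A : ℝ) ≤
        Real.exp ((∑ l ∈ range q, (|N l| + j + 4)) * J) := by
      intro q
      induction q with
      | zero =>
        intro _
        rw [range_zero, sum_empty, zero_mul, Real.exp_zero]
        have h1 := cnt_one_le F.p (fun _ : ℕ => (0 : ℤ)) A
        have h2 : (fun (ω : F.Ω) (l : ℕ) => if l < 0 then X l ω else 0) =
            fun _ => (fun _ : ℕ => (0 : ℤ)) := by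
          funext ω l
          exact if_neg (Nat.not_lt_zero l)
        rw [h2]
        exact_mod_cast h1
      | succ q ih =>
        intro hq
        have h1 := cnt_comp_le F.p (fun ω => ((fun l : ℕ => if l < q then X l ω else 0), X q ω))
          (fun ω (l : ℕ) => if l < q + 1 then X l ω else 0) (A := A)
          (fun v l => if l = q then v.2 else v.1 l) (by
          intro ω _ _
          funext l
          by_cases hl : l = q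
          · rw [if_pos hl, if_pos (by omega), hl]
          · rw [if_neg hl]
            by_cases hl2 : l < q
            · rw [if_pos (by omega)]
              exact (if_pos hl2).symm
            · rw [if_neg (by omega)]
              exact (if_neg hl2).symm)
        have h2 := cnt_pair F.p (fun ω (l : ℕ) => if l < q then X l ω else 0) (X q) A
        have h3 : (cnt F.p (fun ω (l : ℕ) => if l < q + 1 then X l ω else 0) A : ℝ) ≤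
            cnt F.p (fun ω (l : ℕ) => if l < q then X l ω else 0) A * cnt F.p (X q) A := by
          exact_mod_cast h1.trans h2
        refine h3.trans ?_
        rw [sum_range_succ, add_mul, Real.exp_add]
        exact mul_le_mul (ih (by omega)) (hX q (by omega)).2 (Nat.cast_nonneg _)
          (Real.exp_pos _).le
    exact key n le_rfl

end Pool.FVL91
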