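import Pool.Agent.H36.T4.Cls
import Pool.Agent.H91.LA.Own

/-!
# The frame on most of an event, with bounded velocities

`cut_one`: the velocity over a closed affine label is at most `2 ^ (2 J)` on most of every event.
`frm_cut0`: the same for a frame. `frm_cut`: the frame from the labels.
-/

set_option autoImplicit false

namespace Pool.T4N91

open Finset Real MvPolynomial
open Pool.Agent.H49.Ent Pool.Agent.H32.Dense
open Pool.STK hiding pr2
open Pool.KA Pool.KSAT Pool.K2S Pool.PB Pool.S6C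
open Pool.GEN Pool.CHT Pool.LA91 Pool.RCD Pool.T4N
open Pool.GRD (LbP Pb_mono_pos)
open Pool.BFL (Pb)
open Pool.CDX (AffL)

variable {m : ℕ} {S : PCl m}

theorem flm (w : ℝ) (J : ℕ) : ⌊max w 0 * J⌋₊ = ⌊w * J⌋₊ := by
  rcases le_or_gt 0 w with h | h
  · rw [max_eq_left h]
  · rw [max_eq_right h.le, zero_mul, Nat.floor_zero]
    refine (Nat.floor_of_nonpos ?_).symm
    exact mul_nonpos_of_nonpos_of_nonneg h.le (Nat.cast_nonneg J)

/-- The mass of the complement. -/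
theorem pe_of_pb {Ω : Type} [Fintype Ω] {p : Ω → ℝ} (hp : IsLaw p) {A E : Ω → Prop}
    (hA : 0 < Pe p A) {η : ℝ} (h : Pb (Pool.Agent.H49.Ent.cond p A True) (fun ω => ¬ E ω) ≤ η) :
    (1 - η) * Pe p A ≤ Pe p (fun ω => A ω ∧ E ω) := by
  classical
  have h1 := Pool.PB.Trl.Pe_compl (isLaw_cond hp hA) E
  have h2 : Pe (Pool.Agent.H49.Ent.cond p A True) E =
      Pe p (fun ω => A ω ∧ E ω) / Pe p A := by
    rw [Pe_eq, Pe_eq (p := p) (fun ω => A ω ∧ E ω), Finset.sum_div]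
    refine Finset.sum_congr rfl fun ω _ => ?_
    have hl : law p A True = Pe p A := rfl
    unfold Pool.Agent.H49.Ent.cond
    rw [hl]
    by_cases hA' : A ω <;> by_cases hE : E ω <;> simp [hA', hE]
  have h3 : 1 - η ≤ Pe p (fun ω => A ω ∧ E ω) / Pe p A := by
    rw [← h2]
    linarith
  rwa [le_div_iff₀ hA] at h3

/-- **The velocity over a closed affine label** is at most `2 ^ (2 J)` on most of the event. -/
theorem cut_one {C₀ : ℝ} (htm : TmC S C₀) (I : Finset (Fin m)) (k : Fin m) {w δ : ℝ} (hw1 : w < 1)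
    (hδ : 0 < δ) : Bas S (fun J F A => 0 < Pe F.p A ∧ ∀ (P : ℕ) (V : Type) (z : PtT F → V)
      (z' : LnT F → V) (G : V → MvPolynomial (Option (Fin m)) ℝ),
      LbP F I k 1 J ⌊w * J⌋₊ P A z z' G →
      Pb (Pool.Agent.H49.Ent.cond F.p A True) (fun ω =>
        ¬ |ojet F k 1 (G (z' (slam F ⌊w * J⌋₊ ω))) ω| ≤ 2 ^ (2 * J)) ≤ δ) := by
  have hw : max w 0 < 1 := max_lt hw1 one_pos
  have h1 := own_cls htm I k 1 1 (le_max_right w 0) hw hδ (show 0 < 1 - max w 0 by linarith)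
  refine Bas.mono 0 (h1.and (Pool.GRW.tmc_bas htm one_pos)) ?_
  rintro J - F A ⟨h2, hA, -⟩
  refine ⟨hA, fun P V z z' G hG => ?_⟩
  rw [flm w J] at h2
  have h3 := h2 P V z z' G hG
  refine le_trans ?_ h3
  refine Pb_mono_pos (isLaw_cond F.isLaw hA).nonneg fun ω _ hω hcon => hω ?_
  refine hcon.trans ?_
  have hJ0 : (0 : ℝ) ≤ J := Nat.cast_nonneg J
  have e1 : (1 : ℝ) / 2 ^ P ≤ 1 := by
    rw [div_le_one (by positivity)]
    exact one_le_pow₀ (by norm_num)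
  have e2 : (1 - max w 0 + (1 : ℕ) * max w 0) * (J : ℝ) ≤ ((2 * J : ℕ) : ℝ) := by
    push_cast
    nlinarith
  calc (2 : ℝ) ^ ((1 - max w 0 + (1 : ℕ) * max w 0) * (J : ℝ)) * (1 / 2 ^ P) ≤
        2 ^ ((1 - max w 0 + (1 : ℕ) * max w 0) * (J : ℝ)) * 1 :=
        mul_le_mul_of_nonneg_left e1 (by positivity)
    _ ≤ 2 ^ (((2 * J : ℕ) : ℝ)) := by
        rw [mul_one]
        exact Real.rpow_le_rpow_of_exponent_le (by norm_num) e2
    _ = _ := by rw [Real.rpow_natCast]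

/-- **The frame with bounded velocities**, on most of every event on which it is given. -/
theorem frm_cut0 {C₀ : ℝ} (htm : TmC S C₀) (c : ℕ → Fin m) {bl : ℕ → ℝ} {δ : ℝ}
    (hb1 : ∀ l < 3, bl l < 1) (hδ : 0 < δ) :
    Bas S (fun J F A => 0 < Pe F.p A ∧ ∀ (P : Fin 3 → ℕ) (Fr : Frm F),
      (∀ i : Fin 3, LbP F ((range (1 + i)).image c) (c (1 + i)) 1 J ⌊bl i * J⌋₊ (P i) A (Fr.z i)
        (Fr.z' i) (Fr.G i)) →
      ∃ B : F.Ω → Prop, Sub B A ∧ (1 - δ) * Pe F.p A ≤ Pe F.p B ∧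
        FrmP F c (fun i => ⌊bl i * J⌋₊) P B Fr) := by
  have h1 : Bas S (fun J F A => ∀ i < 3, 0 < Pe F.p A ∧ ∀ (P : ℕ) (V : Type) (z : PtT F → V)
      (z' : LnT F → V) (G : V → MvPolynomial (Option (Fin m)) ℝ),
      LbP F ((range (1 + i)).image c) (c (1 + i)) 1 J ⌊bl i * J⌋₊ P A z z' G →
      Pb (Pool.Agent.H49.Ent.cond F.p A True) (fun ω =>
        ¬ |ojet F (c (1 + i)) 1 (G (z' (slam F ⌊bl i * J⌋₊ ω))) ω| ≤ 2 ^ (2 * J)) ≤ δ / 3) :=
    Bas.all 3 fun i hi => cut_one htm _ _ (hb1 i hi) (by positivity)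
  refine Bas.mono 0 h1 ?_
  intro J _ F A h2
  have hA := (h2 0 (by norm_num)).1
  refine ⟨hA, fun P Fr hFr => ?_⟩
  obtain ⟨E, hE⟩ : ∃ E : F.Ω → Prop, E = fun ω => ∀ i : Fin 3,
    |ojet F (c (1 + i)) 1 (Fr.G i (Fr.z' i (slam F ⌊bl i * J⌋₊ ω))) ω| ≤ 2 ^ (2 * J) := ⟨_, rfl⟩
  refine ⟨fun ω => A ω ∧ E ω, fun ω h => h.1, pe_of_pb F.isLaw hA ?_, ?_⟩
  · have hq := isLaw_cond F.isLaw hA
    have h3 : ∀ i : Fin 3, Pb (Pool.Agent.H49.Ent.cond F.p A True) (fun ω =>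
        ¬ |ojet F (c (1 + i)) 1 (Fr.G i (Fr.z' i (slam F ⌊bl i * J⌋₊ ω))) ω| ≤ 2 ^ (2 * J)) ≤
        δ / 3 := fun i => (h2 i i.2).2 (P i) (Fr.V i) (Fr.z i) (Fr.z' i) (Fr.G i) (hFr i)
    have h4 : Pb (Pool.Agent.H49.Ent.cond F.p A True) (fun ω => ¬ E ω) ≤
        ∑ i : Fin 3, Pb (Pool.Agent.H49.Ent.cond F.p A True) (fun ω =>
        ¬ |ojet F (c (1 + i)) 1 (Fr.G i (Fr.z' i (slam F ⌊bl i * J⌋₊ ω))) ω| ≤ 2 ^ (2 * J)) := by
      classical
      unfold Pb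
      rw [Finset.sum_comm]
      refine Finset.sum_le_sum fun ω _ => ?_
      have h0 := hq.nonneg ω
      by_cases hω : E ω
      · rw [if_neg (not_not.2 hω)]
        exact Finset.sum_nonneg fun i _ => by split_ifs <;> linarith
      · rw [if_pos hω]
        have hω' : ∃ i : Fin 3, ¬ |ojet F (c (1 + i)) 1
            (Fr.G i (Fr.z' i (slam F ⌊bl i * J⌋₊ ω))) ω| ≤ 2 ^ (2 * J) := by
          by_contra hcon
          push Not at hcon
          exact hω (by rw [hE]; exact hcon)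
        obtain ⟨i, hi⟩ := hω'
        have h5 := Finset.single_le_sum (s := univ) (f := fun i : Fin 3 =>
          if ¬ |ojet F (c (1 + i)) 1 (Fr.G i (Fr.z' i (slam F ⌊bl i * J⌋₊ ω))) ω| ≤ 2 ^ (2 * J)
          then Pool.Agent.H49.Ent.cond F.p A True ω else 0)
          (fun i _ => by split_ifs <;> linarith) (Finset.mem_univ i)
        rw [if_pos hi] at h5
        convert h5
    refine h4.trans ((Finset.sum_le_sum fun i _ => h3 i).trans (le_of_eq ?_))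
    rw [Finset.sum_const, Finset.card_univ, Fintype.card_fin]
    ring
  · refine ⟨fun i => (hFr i).sub fun ω h => h.1, fun ω hω i => ?_⟩
    have := hω.2
    rw [hE] at this
    exact this i

/-- **The frame from the labels**, on most of every event. -/
theorem frm_cut {C₀ : ℝ} (htm : TmC S C₀) (c : ℕ → Fin m) {bl pl : ℕ → ℝ} {e δ : ℝ}
    (hb1 : ∀ l < 3, bl l < 1)
    (hL : ∀ l < 3, AffL S ((range (1 + l)).image c) (c (1 + l)) (bl l) (pl l)) (he : 0 < e)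
    (hδ : 0 < δ) :
    Bas S (fun J F A => ∃ (B : F.Ω → Prop) (Fr : Frm F), Sub B A ∧
      (1 - δ) * Pe F.p A ≤ Pe F.p B ∧
      FrmP F c (fun i => ⌊bl i * J⌋₊) (fun i => ⌊(pl i - e) * J⌋₊) B Fr) := by
  have h1 : Bas S (fun J F A => ∀ i < 3, ∃ (V : Type) (z : PtT F → V) (z' : LnT F → V)
      (G : V → MvPolynomial (Option (Fin m)) ℝ),
      LbP F ((range (1 + i)).image c) (c (1 + i)) 1 J ⌊bl i * J⌋₊ ⌊(pl i - e) * J⌋₊ A z z' G) :=
    Bas.all 3 fun i hi => hL i hi e he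
  refine Bas.mono 0 (h1.and (frm_cut0 htm c hb1 hδ)) ?_
  rintro J - F A ⟨h2, -, h3⟩
  choose V z z' G h4 using h2
  obtain ⟨B, k1, k2, k3⟩ := h3 (fun i => ⌊(pl i - e) * J⌋₊)
    ⟨fun i => V i i.2, fun i => z i i.2, fun i => z' i i.2, fun i => G i i.2⟩ fun i => h4 i i.2
  exact ⟨B, _, k1, k2, k3⟩

end Pool.T4N91
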