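import Pool.Agent.H91.T4.Af0

/-!
# The own velocities over affine labels: change of labels

`qAf`: the jet of order `j` of the own path over a closed label of degree at most one; `qVel`: these
jets of the places `k₀, …, k₀ + n - 1`. `few_af_e`: the jet over another affine label is few bits
given the jets of the slope-one places and the jets of order `j` of the targets before; the positions
of the targets are not needed.
-/

set_option autoImplicit false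

namespace Pool.FVL91

open Finset Real MvPolynomial
open Pool.Agent.H49.Ent Pool.Agent.H32.Dense Pool.STK Pool.KA Pool.KSAT Pool.K2S Pool.PB Pool.GEN
open Pool.S6C Pool.RCD Pool.LA91
open Pool.GRD (LbP Pb_mono_pos)
open Pool.BFL (Pb)
open Pool.LIV (Pb_mono25 Pb_or25 Pb_ex25)
open Pool.GRW (xr xr_near tmc_bas)

variable {m J : ℕ}

/-- Digits of a bounded number. -/
noncomputable def cfl (j J : ℕ) (N o : ℝ) : ℤ := by
  classical
  exact if |o| ≤ 2 ^ (((j : ℝ) + 1) * J) then ⌊(2 : ℝ) ^ (N * J) * o⌋ else 0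

theorem cfl_eq {j J : ℕ} {N o : ℝ} (h : |o| ≤ 2 ^ (((j : ℝ) + 1) * J)) :
    cfl j J N o = ⌊(2 : ℝ) ^ (N * J) * o⌋ := by
  unfold cfl
  exact if_pos h

/-- The number of the values. -/
theorem cnt_cfl {Ω : Type} [Fintype Ω] {p : Ω → ℝ} {A : Ω → Prop} {u : Ω → ℤ} {j J : ℕ} {N : ℝ}
    {X : Ω → ℝ} (hJ : 1 ≤ J) (hu : ∀ ω, A ω → u ω = cfl j J N (X ω)) :
    (cnt p u A : ℝ) ≤ Real.exp ((|N| + j + 4) * J) := by
  classical
  have hJ1 : (1 : ℝ) ≤ J := by exact_mod_cast hJ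
  have hJ0 : (0 : ℝ) ≤ J := by linarith
  have hj0 : (0 : ℝ) ≤ j := Nat.cast_nonneg j
  obtain ⟨R, hR⟩ : ∃ R : ℝ, R = 2 ^ ((|N| + (j + 1)) * J) := ⟨_, rfl⟩
  have hR1 : 1 ≤ R := by
    rw [hR]
    exact E_one (by positivity)
  have h1 : ∀ ω, A ω → |(u ω : ℝ)| ≤ R + 1 := by
    intro ω hω
    rw [hu ω hω]
    unfold cfl
    split_ifs with h
    · have f1 := Int.floor_le ((2 : ℝ) ^ (N * J) * X ω)
      have f2 := Int.lt_floor_add_one ((2 : ℝ) ^ (N * J) * X ω)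
      have f3 : |(2 : ℝ) ^ (N * J) * X ω| ≤ R := by
        rw [abs_mul, abs_of_pos (E_pos J N), hR, ← E_add]
        exact mul_le_mul (E_mono J (le_abs_self N)) h (abs_nonneg _) (E_pos J _).le
      rw [abs_le] at f3
      rw [abs_le]
      constructor <;> linarith [f3.1, f3.2]
    · rw [Int.cast_zero, abs_zero]
      linarith
  have h2 := cnt_le_of_abs (p := p) (A := A) (by linarith : (0 : ℝ) ≤ R + 1) h1
  refine h2.trans ?_
  have e1 : R ≤ Real.exp ((|N| + (j + 1)) * J) := by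
    rw [hR, ← exp_p2]
    refine Real.exp_le_exp.2 ?_
    have h3 : Real.log 2 ≤ 1 := by
      have := Real.log_two_lt_d9
      linarith
    exact mul_le_of_le_one_right (by positivity) h3
  have e2 : (5 : ℝ) ≤ Real.exp (3 * J) := by
    have h4 : (2.7 : ℝ) ≤ Real.exp 1 := by
      have := Real.exp_one_gt_d9
      linarith
    have h5 : Real.exp 1 ^ 3 ≤ Real.exp (3 * J) := by
      rw [← Real.exp_nat_mul]
      refine Real.exp_le_exp.2 ?_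
      push_cast
      linarith
    have h6 : (2.7 : ℝ) ^ 3 ≤ Real.exp 1 ^ 3 := pow_le_pow_left₀ (by norm_num) h4 3
    have h7 : (5 : ℝ) ≤ 2.7 ^ 3 := by norm_num
    exact h7.trans (h6.trans h5)
  have e3 : Real.exp ((|N| + j + 4) * J) = Real.exp ((|N| + (j + 1)) * J) * Real.exp (3 * J) := by
    rw [← Real.exp_add]
    congr 1
    ring
  rw [e3]
  have e4 : R * 5 ≤ Real.exp ((|N| + (j + 1)) * J) * Real.exp (3 * J) :=
    mul_le_mul e1 e2 (by norm_num) (Real.exp_pos _).le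
  linarith

/-- **The jet of order `j` of the own path** of the place `k` over a closed label of degree at most
one over `I`, of precision `p` at the window `w`, to `N` digits. -/
noncomputable def qAf (m : ℕ) (I : Finset (Fin m)) (k : Fin m) (j : ℕ) (w p N : ℝ) : Qt m ℤ where
  P _ e J F A u := ∃ (V : Type) (z : PtT F → V) (z' : LnT F → V)
      (G : V → MvPolynomial (Option (Fin m)) ℝ),
      LbP F I k 1 J ⌊w * J⌋₊ ⌊(p - e) * J⌋₊ A z z' G ∧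
      ∀ ω, A ω → u ω = cfl j J N (ojet F k j (G (z' (slam F ⌊w * J⌋₊ ω))) ω)
  sub := by
    rintro K e J F A B u hB ⟨V, z, z', G, hl, hu⟩
    exact ⟨V, z, z', G, hl.sub hB, fun ω hω => hu ω (hB ω hω)⟩
  mono := by
    rintro K K' e e' J F A u hK he ⟨V, z, z', G, hl, hu⟩
    exact ⟨V, z, z', G, hl.mono (Finset.Subset.refl _) le_rfl
      (Nat.floor_le_floor (mul_le_mul_of_nonneg_right (by linarith) (Nat.cast_nonneg J))), hu⟩

/-- **The jets of order `j` of the targets** `k₀, …, k₀ + n - 1` over closed affine labels. -/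
noncomputable def qVel (m : ℕ) (c : ℕ → Fin m) (k₀ n j : ℕ) (w p N : ℕ → ℝ) :
    Qt m (ℕ → ℤ) where
  P K e J F A u := (∀ l < n, (qAf m ((range (k₀ + l)).image c) (c (k₀ + l)) j (w l) (p l)
      (N l)).P K e J F A (fun ω => u ω l)) ∧ ∀ ω, A ω → ∀ l, ¬ l < n → u ω l = 0
  sub := by
    rintro K e J F A B u hB ⟨h1, h2⟩
    exact ⟨fun l a => (qAf m _ _ _ _ _ _).sub hB (h1 l a), fun ω hω => h2 ω (hB ω hω)⟩
  mono := by
    rintro K K' e e' J F A u hK he ⟨h1, h2⟩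
    exact ⟨fun l a => (qAf m _ _ _ _ _ _).mono hK he (h1 l a), h2⟩

/-- **Change of charts over a nested chain**, with explicit accuracy. -/
theorem few_af_e {S : PCl m} {C₀ : ℝ} (htm : TmC S C₀) {c : ℕ → Fin m} {r₀ k₀ n : ℕ}
    (hk0 : r₀ ≤ k₀) {w u₀ u₁ : ℝ} {s rd : ℕ → ℝ} (hch : Chn S c r₀ (k₀ + n) w u₀ u₁ s rd)
    {k : Fin m} {j : ℕ} {wv pv Nv : ℕ → ℕ → ℝ} {lv wt pt Nt : ℕ → ℝ}
    {w₁ w₂ p₁ p₂ N₁ N₂ p₀ lam σ₀ κ θ e₀ : ℝ} (he₀ : e₀ = σ₀ / (16 * ((n : ℝ) + 1)))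
    (hwv : ∀ i, r₀ ≤ i → i < k₀ → ∀ j' ≤ j, wv i j' ≤ w)
    (hwt : ∀ l < n, wt l ≤ w) (hw₁ : w₁ ≤ w) (hw₂ : w₂ ≤ w)
    (hu0 : u₀ < p₀) (hp0 : p₀ ≤ 1) (hlam : 0 < lam) (hσ₀ : 0 < σ₀) (hκ : 0 ≤ κ + σ₀)
    (hθ : 0 ≤ θ) (hpt : ∀ l < n, s (k₀ + l) ≤ pt l + θ)
    (hlv : ∀ i, r₀ ≤ i → i < k₀ → 0 < lv i)
    (h1 : ∀ i, r₀ ≤ i → i < k₀ → ∀ j' ≤ j, s i + lv i + σ₀ ≤ Nv i j' + j' * u₀)
    (h2 : ∀ i, r₀ ≤ i → i < k₀ → ∀ j' ≤ j,
      s i + lv i + σ₀ ≤ min (pv i j') (s i) + min lam (p₀ - u₀))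
    (h2' : ∀ i, r₀ ≤ i → i < k₀ → ∀ j' ≤ j, ∀ l, r₀ ≤ l → l < i →
      s i + lv i + σ₀ ≤ min (pv i j') (s i) + lv l)
    (hN : N₂ ≤ N₁)
    (h3 : N₂ + j * u₀ + n * θ ≤ min p₁ p₂ + min lam (p₀ - u₀) + κ)
    (h3' : ∀ l, r₀ ≤ l → l < k₀ → N₂ + j * u₀ + n * θ ≤ min p₁ p₂ + lv l + κ)
    (h4 : ∀ l < n, N₂ + s (k₀ + l) + n * θ ≤ min p₁ p₂ + Nt l + κ)
    {α γ : ∀ J : ℕ, Fam m J → Type} {f : ∀ (J : ℕ) (F : Fam m J), F.Ω → α J F}
    {y : ∀ (J : ℕ) (F : Fam m J), F.Ω → γ J F}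
    (hf : ∀ (J : ℕ) (F : Fam m J), ∃ φ : α J F → PtT F, ∀ ω, ptr F J ω = φ (f J F ω))
    (hy : Kn ((range r₀).image c) p₀ lam y) {h : ℝ} (hh : 0 < h) (K : ℕ) :
    Bas S (fun J F A => ∀ (uu : F.Ω → ℕ → ℕ → ℤ) (vv : F.Ω → ℕ → ℤ) (u u' : F.Ω → ℤ),
      (qJets m c r₀ k₀ j wv pv Nv).P K e₀ J F A uu →
      (qVel m c k₀ n j wt pt Nt).P K e₀ J F A vv →
      (qAf m ((range (k₀ + n)).image c) k j w₁ p₁ N₁).P K e₀ J F A u →
      (qAf m ((range (k₀ + n)).image c) k j w₂ p₂ N₂).P K e₀ J F A u' →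
      ∃ (V : Type) (z : F.Ω → V), Cl2 (f J F) (vg w J F) A z ∧
        CH (Pool.Agent.H49.Ent.cond F.p A True) u'
          (fun ω => (((uu ω, vv ω), u ω), (z ω, y J F ω))) ≤ (h + κ + σ₀) * J) := by
  classical
  have hr : r₀ ≤ k₀ + n := by omega
  have hn0 : (0 : ℝ) ≤ n := Nat.cast_nonneg n
  have he0 : 0 < e₀ := by rw [he₀]; positivity
  obtain ⟨KM, hKM⟩ : ∃ KM : ℝ, KM = |N₂| + j + 4 := ⟨_, rfl⟩
  have hKM0 : 0 ≤ KM := by
    rw [hKM]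
    positivity
  have hne0 : ((n : ℝ) + 1) * e₀ = σ₀ / 16 := by
    rw [he₀]
    field_simp
  have he8 : e₀ ≤ σ₀ / 8 := by
    have := le_mul_of_one_le_left he0.le (show (1 : ℝ) ≤ n + 1 by linarith)
    linarith
  have hw0 := hch.w0
  have hwu0 := hch.wu0
  have hu01 := hch.u0
  have hw1 : w < 1 := by linarith
  have hu00 : 0 ≤ u₀ := by linarith
  have hj0 : (0 : ℝ) ≤ j := Nat.cast_nonneg j
  have hr0 : (0 : ℝ) ≤ k₀ := Nat.cast_nonneg k₀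
  have hK0 : (0 : ℝ) ≤ K := Nat.cast_nonneg K
  -- the numbers
  obtain ⟨ε, hε⟩ : ∃ ε : ℝ, ε = min (σ₀ / (8 * ((j : ℝ) + 1))) (min e₀ 1) := ⟨_, rfl⟩
  have hε0 : 0 < ε := by rw [hε]; exact lt_min (by positivity) (lt_min he0 one_pos)
  have hεe : ε ≤ e₀ := by rw [hε]; exact (min_le_right _ _).trans (min_le_left _ _)
  have hεo : ε ≤ 1 := by rw [hε]; exact (min_le_right _ _).trans (min_le_right _ _)
  have hε1 : ((j : ℝ) + 1) * ε ≤ σ₀ / 8 := by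
    have e1 : ε ≤ σ₀ / (8 * ((j : ℝ) + 1)) := by rw [hε]; exact min_le_left _ _
    refine (mul_le_mul_of_nonneg_left e1 (by linarith)).trans (le_of_eq ?_)
    field_simp
  obtain ⟨υ, hυ⟩ : ∃ υ : ℝ, υ = min ε ((p₀ - u₀) / 2) := ⟨_, rfl⟩
  have hυ0 : 0 < υ := by rw [hυ]; exact lt_min hε0 (by linarith)
  have hυ1 : υ ≤ ε := by rw [hυ]; exact min_le_left _ _
  have hυ2 : υ ≤ (p₀ - u₀) / 2 := by rw [hυ]; exact min_le_right _ _
  have hε8 : ε ≤ σ₀ / 8 := by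
    refine le_trans ?_ hε1
    exact le_mul_of_one_le_left hε0.le (by linarith)
  obtain ⟨u₂, hu₂⟩ : ∃ u₂ : ℝ, u₂ = u₀ + υ := ⟨_, rfl⟩
  have hu02 : u₀ < u₂ := by linarith
  have hu2p : u₂ < p₀ := by linarith
  have hu21 : u₂ < 1 := by linarith
  have hu20 : 0 ≤ u₂ := by linarith
  obtain ⟨Kc, d, hd, hnb⟩ := nbx_cls htm hch hu02 hu21 (max K 1) hε0
    (show 0 < σ₀ / 8 by linarith)
  obtain ⟨K', hK'⟩ : ∃ K', K' = (range k₀).sup Kc := ⟨_, rfl⟩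
  obtain ⟨C, hC, hjpt⟩ := jetN_pt m k₀ (max K 1) K' j
  have hC0 : 0 ≤ C := by linarith
  obtain ⟨Λ, hΛ⟩ : ∃ Λ : ℝ, Λ = min lam (p₀ - u₂) := ⟨_, rfl⟩
  have hΛ0 : 0 < Λ := by rw [hΛ]; exact lt_min hlam (by linarith)
  have hΛ1 : Λ ≤ lam := by rw [hΛ]; exact min_le_left _ _
  have hΛ2 : Λ ≤ p₀ - u₂ := by rw [hΛ]; exact min_le_right _ _
  have hΛ3 : min lam (p₀ - u₀) - σ₀ / 8 ≤ Λ := by
    rw [hΛ]
    refine le_min ?_ ?_
    · have := min_le_left lam (p₀ - u₀)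
      linarith
    · have := min_le_right lam (p₀ - u₀)
      linarith
  have hν : ∃ ν : ℝ, 0 < ν ∧ ν ≤ Λ ∧ ∀ l < k₀, r₀ ≤ l → ν ≤ lv l := by
    have key : ∀ q ≤ k₀, ∃ ν : ℝ, 0 < ν ∧ ν ≤ Λ ∧ ∀ l < q, r₀ ≤ l → ν ≤ lv l := by
      intro q
      induction q with
      | zero =>
        intro _
        exact ⟨Λ, hΛ0, le_rfl, fun l hl => absurd hl (Nat.not_lt_zero l)⟩
      | succ q ih =>
        intro hq
        obtain ⟨ν, a1, a2, a3⟩ := ih (by omega)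
        by_cases hq0 : r₀ ≤ q
        · refine ⟨min ν (lv q), lt_min a1 (hlv q hq0 (by omega)), (min_le_left _ _).trans a2,
            fun l hl hl0 => ?_⟩
          rcases Nat.lt_or_ge l q with h4 | h4
          · exact (min_le_left _ _).trans (a3 l h4 hl0)
          · rw [show l = q by omega]
            exact min_le_right _ _
        · exact ⟨ν, a1, a2, fun l hl hl0 => a3 l (by omega) hl0⟩
    exact key k₀ le_rfl
  obtain ⟨ν, hν0, hνΛ, hνl⟩ := hν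
  obtain ⟨NE, hNE⟩ : ∃ NE : ℝ, NE = 2 * (k₀ * (j + 1)) + 2 * n + 3 := ⟨_, rfl⟩
  have hNE0 : 0 < NE := by rw [hNE]; positivity
  obtain ⟨η, hη⟩ : ∃ η : ℝ, η = min 1 (h / (2 * NE * (KM + 1))) := ⟨_, rfl⟩
  have hη0 : 0 < η := by rw [hη]; exact lt_min one_pos (by positivity)
  have hη1 : η ≤ 1 := by rw [hη]; exact min_le_left _ _
  have hηK : NE * η * KM ≤ h / 2 := by
    have e1 : η ≤ h / (2 * NE * (KM + 1)) := by rw [hη]; exact min_le_right _ _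
    have e2 : NE * η * KM ≤ NE * (h / (2 * NE * (KM + 1))) * KM :=
      mul_le_mul_of_nonneg_right (mul_le_mul_of_nonneg_left e1 hNE0.le) hKM0
    have e3 : NE * (h / (2 * NE * (KM + 1))) * KM = h / 2 * (KM / (KM + 1)) := by
      field_simp
    have e4 : KM / (KM + 1) ≤ 1 := by
      rw [div_le_one (by positivity)]
      linarith
    rw [e3] at e2
    have e5 := mul_le_mul_of_nonneg_left e4 (show 0 ≤ h / 2 by linarith)
    linarith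
  -- the limits
  obtain ⟨J₁, hJ₁⟩ := E_big (a := 5 * σ₀ / 8) (C := 128 * C * (k₀ + 1)) (by linarith)
  obtain ⟨J₂, hJ₂⟩ := E_big (a := ν) (C := 64 * ((j : ℝ) + 1) * (k₀ + 1)) hν0
  obtain ⟨J₃, hJ₃⟩ := E_big (a := σ₀) (C := 2) hσ₀
  obtain ⟨J₄, hJ₄⟩ := E_big (a := σ₀ / 4) (C := 128 * C * (k₀ + 1) * 4 ^ j * 4 ^ n) (by linarith)
  obtain ⟨J₆, hJ₆⟩ := E_big (a := σ₀ / 2) (C := 16 * n * 4 ^ n) (by linarith)
  obtain ⟨J₅, hJ₅⟩ := exists_nat_ge ((Real.log 2 + Real.log 7) / (h / 2))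
  have hownA : Bas S (fun J F A => ∀ i < k₀, ∀ j' < j + 1, ∀ (P : ℕ) (V : Type) (z : PtT F → V)
      (z' : LnT F → V) (G : V → MvPolynomial (Option (Fin m)) ℝ),
      LbP F ((range i).image c) (c i) (Kc i) J ⌊w * J⌋₊ P A z z' G →
      Pb (Pool.Agent.H49.Ent.cond F.p A True) (fun ω =>
        ¬ |ojet F (c i) j' (G (z' (slam F ⌊w * J⌋₊ ω))) ω| ≤
          2 ^ ((ε + j' * w) * J) * (1 / 2 ^ P)) ≤ η) :=
    Bas.all k₀ fun i _ => Bas.all (j + 1) fun j' _ =>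
      own_cls htm ((range i).image c) (c i) j' (Kc i) hw0 hw1 hη0 hε0
  have hownT : Bas S (fun J F A => ∀ l < n, ∀ (P : ℕ) (V : Type) (z : PtT F → V)
      (z' : LnT F → V) (G : V → MvPolynomial (Option (Fin m)) ℝ),
      LbP F ((range (k₀ + l)).image c) (c (k₀ + l)) 1 J ⌊w * J⌋₊ P A z z' G →
      Pb (Pool.Agent.H49.Ent.cond F.p A True) (fun ω =>
        ¬ |ojet F (c (k₀ + l)) j (G (z' (slam F ⌊w * J⌋₊ ω))) ω| ≤
          2 ^ ((ε + j * w) * J) * (1 / 2 ^ P)) ≤ η) :=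
    Bas.all n fun l _ =>
      own_cls htm ((range (k₀ + l)).image c) (c (k₀ + l)) j 1 hw0 hw1 hη0 hε0
  have hownK := own_cls htm ((range (k₀ + n)).image c) k j 1 hw0 hw1 hη0 hε0
  refine Bas.mono (J₁ + J₂ + J₃ + J₄ + J₅ + J₆ + 1) ((hnb η hη0 hη1).and ((hownA.and
    (hownT.and hownK)).and (tmc_bas htm one_pos))) ?_
  rintro J hJ F A ⟨⟨V, z, z', g, hlab, hg0, hgc, hbox⟩, ⟨hown, howT, howK⟩, hA, -⟩ uu vv u u' huu0
    ⟨hvv, -⟩ ⟨V₁, z₁, z₁', G₁, hl₁e, hu₁⟩ ⟨V₂, z₂, z₂', G₂, hl₂e, hu₂'⟩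
  have hcu := cnt_cfl (p := F.p) (show 1 ≤ J by omega) hu₂'
  rw [← hKM] at hcu
  obtain ⟨huu, -⟩ := (qJets m c r₀ k₀ j wv pv Nv).mono le_rfl he8 huu0
  have hJ00 : (0 : ℝ) ≤ J := Nat.cast_nonneg J
  have hl₁ := hl₁e.mono (Finset.Subset.refl _) le_rfl (Nat.floor_le_floor
    (mul_le_mul_of_nonneg_right (show p₁ - σ₀ / 8 ≤ p₁ - e₀ by linarith) hJ00))
  have hl₂ := hl₂e.mono (Finset.Subset.refl _) le_rfl (Nat.floor_le_floor
    (mul_le_mul_of_nonneg_right (show p₂ - σ₀ / 8 ≤ p₂ - e₀ by linarith) hJ00))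
  have hJ0 : (0 : ℝ) ≤ J := Nat.cast_nonneg J
  have hJpos : 1 ≤ J := by omega
  have f1 := hJ₁ J (by omega)
  have f2 := hJ₂ J (by omega)
  have f3 := hJ₃ J (by omega)
  have f4 := hJ₄ J (by omega)
  have f6 := hJ₆ J (by omega)
  have f5 : Real.log 2 + Real.log 7 ≤ h / 2 * J := by
    have e1 : (J₅ : ℝ) ≤ J := by exact_mod_cast (show J₅ ≤ J by omega)
    have e2 := hJ₅.trans e1
    rw [div_le_iff₀ (by positivity)] at e2
    linarith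
  -- the windows
  have hwJ : ⌊w * J⌋₊ ≤ J := floor_le hw1.le J
  have hw1J : ⌊w₁ * J⌋₊ ≤ ⌊w * J⌋₊ := Nat.floor_le_floor (mul_le_mul_of_nonneg_right hw₁ hJ0)
  have hw2J : ⌊w₂ * J⌋₊ ≤ ⌊w * J⌋₊ := Nat.floor_le_floor (mul_le_mul_of_nonneg_right hw₂ hJ0)
  have hUJ : ⌊u₂ * J⌋₊ < J := by
    have e1 : ((⌊u₂ * J⌋₊ : ℕ) : ℝ) ≤ u₂ * J := Nat.floor_le (by positivity)
    have e2 : (1 : ℝ) ≤ J := by exact_mod_cast hJpos
    have e3 : u₂ * J < 1 * J := mul_lt_mul_of_pos_right hu21 (by linarith)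
    have e4 : ((⌊u₂ * J⌋₊ : ℕ) : ℝ) < J := by linarith
    exact_mod_cast e4
  -- the labels of the coordinate `k`
  have hl₁' := hl₁.win hw1J hwJ
  have hl₂' := hl₂.win hw2J hwJ
  obtain ⟨y₁, hy₁⟩ : ∃ y₁ : LnT F → V₁, y₁ = fun s =>
    z₁' (s.1, s.2.1, s.2.2 / 2 ^ (⌊w * J⌋₊ - ⌊w₁ * J⌋₊)) := ⟨_, rfl⟩
  obtain ⟨y₂, hy₂⟩ : ∃ y₂ : LnT F → V₂, y₂ = fun s =>
    z₂' (s.1, s.2.1, s.2.2 / 2 ^ (⌊w * J⌋₊ - ⌊w₂ * J⌋₊)) := ⟨_, rfl⟩
  rw [← hy₁] at hl₁'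
  rw [← hy₂] at hl₂'
  have g1 : ∀ ω, y₁ (slam F ⌊w * J⌋₊ ω) = z₁' (slam F ⌊w₁ * J⌋₊ ω) := fun ω => by
    rw [hy₁]
    show z₁' ((slam F ⌊w * J⌋₊ ω).1, (slam F ⌊w * J⌋₊ ω).2.1,
      (slam F ⌊w * J⌋₊ ω).2.2 / 2 ^ (⌊w * J⌋₊ - ⌊w₁ * J⌋₊)) = _
    rw [← slam_coarse F hw1J hwJ ω]
  have g2 : ∀ ω, y₂ (slam F ⌊w * J⌋₊ ω) = z₂' (slam F ⌊w₂ * J⌋₊ ω) := fun ω => by
    rw [hy₂]
    show z₂' ((slam F ⌊w * J⌋₊ ω).1, (slam F ⌊w * J⌋₊ ω).2.1,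
      (slam F ⌊w * J⌋₊ ω).2.2 / 2 ^ (⌊w * J⌋₊ - ⌊w₂ * J⌋₊)) = _
    rw [← slam_coarse F hw2J hwJ ω]
  -- the labels of the chain
  have hex : ∀ i j' : ℕ, ∃ (a : PtT F → MvPolynomial (Option (Fin m)) ℝ)
      (a' : LnT F → MvPolynomial (Option (Fin m)) ℝ),
      (∀ ω, A ω → a (ptr F J ω) = a' (slam F ⌊w * J⌋₊ ω)) ∧
      (r₀ ≤ i → i < k₀ → j' ≤ j → LbP F ((range i).image c) (c i) K J ⌊w * J⌋₊
        ⌊(pv i j' - σ₀ / 8) * J⌋₊ A a a' (nfp K ((range i).image c)) ∧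
        (∀ s, nfp K ((range i).image c) (a' s) = a' s) ∧
        ∀ ω, A ω → uu ω i j' = ⌊(2 : ℝ) ^ (Nv i j' * J) *
          ojet F (c i) j' (a' (slam F ⌊w * J⌋₊ ω)) ω⌋) := by
    intro i j'
    by_cases hin : r₀ ≤ i ∧ i < k₀ ∧ j' ≤ j
    · obtain ⟨-, Va, za, za', Ga, hla, hua⟩ := huu i hin.1 hin.2.1 j' hin.2.2
      have hwi : ⌊wv i j' * J⌋₊ ≤ ⌊w * J⌋₊ := Nat.floor_le_floor
        (mul_le_mul_of_nonneg_right (hwv i hin.1 hin.2.1 j' hin.2.2) hJ0)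
      have hla' := LbP.nfp (hla.win hwi hwJ)
      refine ⟨_, _, hla'.1.cls, fun _ _ _ => ⟨hla'.1, fun s => hla'.2 _, fun ω hω => ?_⟩⟩
      have e1 : za' ((slam F ⌊w * J⌋₊ ω).1, (slam F ⌊w * J⌋₊ ω).2.1,
          (slam F ⌊w * J⌋₊ ω).2.2 / 2 ^ (⌊w * J⌋₊ - ⌊wv i j' * J⌋₊)) =
          za' (slam F ⌊wv i j' * J⌋₊ ω) := by
        rw [← slam_coarse F hwi hwJ ω]
      simp only [e1]
      exact hua ω hω
    · exact ⟨fun _ => 0, fun _ => 0, fun _ _ => rfl, fun a b c => absurd ⟨a, b, c⟩ hin⟩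
  choose a a' hacl hain using hex
  have hadep : ∀ i, r₀ ≤ i → i < k₀ → ∀ j' ≤ j, ∀ s, DepN c i (a' i j' s) ∧
      (a' i j' s).totalDegree ≤ K := by
    intro i hi0 hi j' hj' s
    obtain ⟨b1, b2, -⟩ := hain i j' hi0 hi hj'
    rw [← b2 s]
    refine ⟨fun x x' e1 e2 => b1.dep _ x x' e1 fun l hl => ?_, b1.deg _⟩
    obtain ⟨l', hl', rfl⟩ := mem_image.1 hl
    exact e2 l' (mem_range.1 hl')
  -- the affine labels of the targets
  have hexT : ∀ l : ℕ, ∃ (t : PtT F → MvPolynomial (Option (Fin m)) ℝ)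
      (t' : LnT F → MvPolynomial (Option (Fin m)) ℝ),
      (∀ ω, A ω → t (ptr F J ω) = t' (slam F ⌊w * J⌋₊ ω)) ∧
      (l < n → LbP F ((range (k₀ + l)).image c) (c (k₀ + l)) 1 J ⌊w * J⌋₊
        ⌊(pt l - e₀) * J⌋₊ A t t' (nfp 1 ((range (k₀ + l)).image c)) ∧
        (∀ s, nfp 1 ((range (k₀ + l)).image c) (t' s) = t' s) ∧
        ∀ ω, A ω → vv ω l = cfl j J (Nt l)
          (ojet F (c (k₀ + l)) j (t' (slam F ⌊w * J⌋₊ ω)) ω)) := by
    intro l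
    by_cases hin : l < n
    · obtain ⟨Va, za, za', Ga, hla, hua⟩ := hvv l hin
      have hwi : ⌊wt l * J⌋₊ ≤ ⌊w * J⌋₊ := Nat.floor_le_floor
        (mul_le_mul_of_nonneg_right (hwt l hin) hJ0)
      have hla' := LbP.nfp (hla.win hwi hwJ)
      refine ⟨_, _, hla'.1.cls, fun _ => ⟨hla'.1, fun s => hla'.2 _, fun ω hω => ?_⟩⟩
      have e1 : za' ((slam F ⌊w * J⌋₊ ω).1, (slam F ⌊w * J⌋₊ ω).2.1,
          (slam F ⌊w * J⌋₊ ω).2.2 / 2 ^ (⌊w * J⌋₊ - ⌊wt l * J⌋₊)) =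
          za' (slam F ⌊wt l * J⌋₊ ω) := by
        rw [← slam_coarse F hwi hwJ ω]
      simp only [e1]
      exact hua ω hω
    · exact ⟨fun _ => 0, fun _ => 0, fun _ _ => rfl, fun a => absurd a hin⟩
  choose tt tt' httc httin using hexT
  have htdep : ∀ l < n, ∀ s, DepN c (k₀ + l) (tt' l s) ∧ (tt' l s).totalDegree ≤ 1 := by
    intro l hl s
    obtain ⟨b1, b2, -⟩ := httin l hl
    rw [← b2 s]
    refine ⟨fun x x' e1 e2 => b1.dep _ x x' e1 fun i hi => ?_, b1.deg _⟩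
    obtain ⟨i', hi', rfl⟩ := mem_image.1 hi
    exact e2 i' (mem_range.1 hi')
  have hgdep : ∀ i, r₀ ≤ i → i < k₀ + n → ∀ v, DepN c i (g v i) := by
    intro i hi0 hi v x x' e1 e2
    refine (hlab i hi0 hi).dep v x x' e1 fun l hl => ?_
    obtain ⟨l', hl', rfl⟩ := mem_image.1 hl
    exact e2 l' (mem_range.1 hl')
  have hgdeg : ∀ i < k₀, ∀ v, (g v i).totalDegree ≤ K' := by
    intro i hi v
    rcases Nat.lt_or_ge i r₀ with h' | h'
    · rw [hg0 v i (Or.inl h'), totalDegree_zero]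
      exact Nat.zero_le _
    · rw [hK']
      exact ((hlab i h' (by omega)).deg v).trans (Finset.le_sup (f := Kc) (mem_range.2 hi))
  have hG12 : ∀ v₁ v₂, DepN c (k₀ + n) (G₁ v₁ - G₂ v₂) ∧ (G₁ v₁ - G₂ v₂).totalDegree ≤ 1 := by
    intro v₁ v₂
    refine ⟨fun x x' e1 e2 => ?_, (totalDegree_sub _ _).trans (max_le (hl₁.deg _) (hl₂.deg _))⟩
    have e3 : ∀ i ∈ (range (k₀ + n)).image c, x (some i) = x' (some i) := by
      intro i hi
      obtain ⟨l, hl, rfl⟩ := mem_image.1 hi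
      exact e2 l (mem_range.1 hl)
    rw [map_sub, map_sub, hl₁.dep _ x x' e1 e3, hl₂.dep _ x x' e1 e3]
  -- the bad events
  have hq := isLaw_cond F.isLaw hA
  have h0 := hq.nonneg
  obtain ⟨gg, hgg⟩ : ∃ gg : ℕ → ℕ, gg = fun i => ⌊(s i - d i) * J⌋₊ := ⟨_, rfl⟩
  obtain ⟨bad1, hbad1⟩ : ∃ bad1 : ℕ → ℕ → F.Ω → Prop, bad1 = fun i j' ω =>
    (r₀ ≤ i ∧ j' ≤ j) ∧ ¬ ∀ x, NB F c r₀ i ⌊u₂ * J⌋₊ (fun i => 2 / 2 ^ gg i)
        (g (z' (slam F ⌊w * J⌋₊ ω))) ω x →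
      |eval x (a' i j' (slam F ⌊w * J⌋₊ ω) - g (z' (slam F ⌊w * J⌋₊ ω)) i)| ≤
        2 ^ (ε * J) * (1 / 2 ^ ⌊(pv i j' - σ₀ / 8) * J⌋₊ + 1 / 2 ^ gg i) := ⟨_, rfl⟩
  obtain ⟨bad2, hbad2⟩ : ∃ bad2 : ℕ → ℕ → F.Ω → Prop, bad2 = fun i j' ω =>
    r₀ ≤ i ∧ ¬ |ojet F (c i) j' (g (z' (slam F ⌊w * J⌋₊ ω)) i) ω| ≤
      2 ^ ((ε + j' * w) * J) * (1 / 2 ^ gg i) := ⟨_, rfl⟩
  obtain ⟨bad3, hbad3⟩ : ∃ bad3 : F.Ω → Prop, bad3 = fun ω =>
    ¬ ∀ x, NB F c r₀ (k₀ + n) ⌊u₂ * J⌋₊ (fun i => 2 / 2 ^ gg i)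
        (g (z' (slam F ⌊w * J⌋₊ ω))) ω x →
      |eval x (G₁ (y₁ (slam F ⌊w * J⌋₊ ω)) - G₂ (y₂ (slam F ⌊w * J⌋₊ ω)))| ≤
        2 ^ (ε * J) * (1 / 2 ^ ⌊(p₁ - σ₀ / 8) * J⌋₊ + 1 / 2 ^ ⌊(p₂ - σ₀ / 8) * J⌋₊) := ⟨_, rfl⟩
  obtain ⟨bad5, hbad5⟩ : ∃ bad5 : F.Ω → Prop, bad5 = fun ω =>
    ¬ |ojet F k j (G₁ (y₁ (slam F ⌊w * J⌋₊ ω))) ω| ≤
      2 ^ ((ε + j * w) * J) * (1 / 2 ^ ⌊(p₁ - σ₀ / 8) * J⌋₊) := ⟨_, rfl⟩
  obtain ⟨bad6, hbad6⟩ : ∃ bad6 : F.Ω → Prop, bad6 = fun ω =>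
    ¬ |ojet F k j (G₂ (y₂ (slam F ⌊w * J⌋₊ ω))) ω| ≤
      2 ^ ((ε + j * w) * J) * (1 / 2 ^ ⌊(p₂ - σ₀ / 8) * J⌋₊) := ⟨_, rfl⟩
  obtain ⟨bad7, hbad7⟩ : ∃ bad7 : ℕ → F.Ω → Prop, bad7 = fun l ω =>
    ¬ |ojet F (c (k₀ + l)) j (tt' l (slam F ⌊w * J⌋₊ ω)) ω| ≤
      2 ^ ((ε + j * w) * J) * (1 / 2 ^ ⌊(pt l - e₀) * J⌋₊) := ⟨_, rfl⟩
  obtain ⟨bad4, hbad4⟩ : ∃ bad4 : ℕ → F.Ω → Prop, bad4 = fun l ω =>
    ¬ ∀ x, NB F c r₀ (k₀ + l) ⌊u₂ * J⌋₊ (fun i => 2 / 2 ^ gg i)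
        (g (z' (slam F ⌊w * J⌋₊ ω))) ω x →
      |eval x (tt' l (slam F ⌊w * J⌋₊ ω) - g (z' (slam F ⌊w * J⌋₊ ω)) (k₀ + l))| ≤
        2 ^ (ε * J) * (1 / 2 ^ ⌊(pt l - e₀) * J⌋₊ + 1 / 2 ^ gg (k₀ + l)) := ⟨_, rfl⟩
  have hP1 : ∀ i < k₀, ∀ j' < j + 1, Pb (Pool.Agent.H49.Ent.cond F.p A True) (bad1 i j') ≤ η := by
    intro i hi j' hj'
    by_cases hi0 : r₀ ≤ i
    · obtain ⟨b1, b2, -⟩ := hain i j' hi0 hi (by omega)
      have b3 := hbox i hi0 (by omega) (c i) (max K (Kc i)) ⌊(pv i j' - σ₀ / 8) * J⌋₊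
        ⌊(s i - d i) * J⌋₊ _ _ _ _ _ _ _ _ (by
          rw [if_pos (by omega : i < k₀ + n)]
          exact max_le_max (le_max_left _ _) le_rfl)
        (b1.mono (Finset.Subset.refl _) (le_max_left _ _) le_rfl)
        ((LbP.of (hlab i hi0 (by omega))).mono (Finset.Subset.refl _) (le_max_right _ _) le_rfl)
      refine le_trans (Pb_mono25 h0 fun ω hω hn => ?_) b3
      rw [hbad1] at hn
      intro hall
      refine hn.2 fun x hx => ?_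
      rw [hgg] at hx ⊢
      have b4 := hall x hx
      rw [b2] at b4
      exact b4
    · refine le_trans (Pb_mono25 h0 (B := fun _ => False) fun ω hω hn => ?_) (le_of_eq_of_le ?_
        hη0.le)
      · rw [hbad1] at hn
        exact hi0 hn.1.1
      · unfold Pb
        simp
  have hP2 : ∀ i < k₀, ∀ j' < j + 1, Pb (Pool.Agent.H49.Ent.cond F.p A True) (bad2 i j') ≤ η := by
    intro i hi j' hj'
    by_cases hi0 : r₀ ≤ i
    · have b3 := hown i hi j' hj' _ _ _ _ _ (LbP.of (hlab i hi0 (by omega)))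
      refine le_trans (Pb_mono25 h0 fun ω hω hn => ?_) b3
      rw [hbad2, hgg] at hn
      exact hn.2
    · refine le_trans (Pb_mono25 h0 (B := fun _ => False) fun ω hω hn => ?_) (le_of_eq_of_le ?_
        hη0.le)
      · rw [hbad2] at hn
        exact hi0 hn.1
      · unfold Pb
        simp
  have hP3 : Pb (Pool.Agent.H49.Ent.cond F.p A True) bad3 ≤ η := by
    have b3 := hbox (k₀ + n) hr le_rfl k (max K 1) ⌊(p₁ - σ₀ / 8) * J⌋₊ ⌊(p₂ - σ₀ / 8) * J⌋₊ V₁ V₂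
      z₁ y₁ G₁ z₂ y₂ G₂ (le_max_left _ _)
      (hl₁'.mono (Finset.Subset.refl _) (le_max_right _ _) le_rfl)
      (hl₂'.mono (Finset.Subset.refl _) (le_max_right _ _) le_rfl)
    rw [hbad3, hgg]
    exact b3
  have hP5 : Pb (Pool.Agent.H49.Ent.cond F.p A True) bad5 ≤ η := by
    rw [hbad5]
    exact howK _ _ _ _ _ hl₁'
  have hP6 : Pb (Pool.Agent.H49.Ent.cond F.p A True) bad6 ≤ η := by
    rw [hbad6]
    exact howK _ _ _ _ _ hl₂'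
  have hP7 : ∀ l < n, Pb (Pool.Agent.H49.Ent.cond F.p A True) (bad7 l) ≤ η := by
    intro l hl
    obtain ⟨b1, b2, -⟩ := httin l hl
    refine le_trans (Pb_mono25 h0 fun ω hω hn => ?_) (howT l hl _ _ _ _ _ b1)
    rw [hbad7] at hn
    rw [b2]
    exact hn
  have hP4 : ∀ l < n, Pb (Pool.Agent.H49.Ent.cond F.p A True) (bad4 l) ≤ η := by
    intro l hl
    obtain ⟨b1, b2, -⟩ := httin l hl
    have b3 := hbox (k₀ + l) (by omega) (by omega) (c (k₀ + l)) (max (max K 1) (Kc (k₀ + l)))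
      ⌊(pt l - e₀) * J⌋₊ ⌊(s (k₀ + l) - d (k₀ + l)) * J⌋₊ _ _ _ _ _ _ _ _ (by
        rw [if_pos (by omega : k₀ + l < k₀ + n)])
      (b1.mono (Finset.Subset.refl _) ((le_max_right _ _).trans (le_max_left _ _)) le_rfl)
      ((LbP.of (hlab (k₀ + l) (by omega) (by omega))).mono (Finset.Subset.refl _)
        (le_max_right _ _) le_rfl)
    refine le_trans (Pb_mono25 h0 fun ω hω hn => ?_) b3
    rw [hbad4] at hn
    intro hall
    refine hn fun x hx => ?_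
    rw [hgg] at hx ⊢
    have b4 := hall x hx
    rw [b2] at b4
    exact b4
  obtain ⟨Bad, hBad⟩ : ∃ Bad : F.Ω → Prop, Bad = fun ω => (∃ i < k₀, ∃ j' < j + 1, bad1 i j' ω) ∨
    ((∃ i < k₀, ∃ j' < j + 1, bad2 i j' ω) ∨ ((bad3 ω ∨ ∃ l < n, bad4 l ω) ∨
      ((bad5 ω ∨ bad6 ω) ∨ ∃ l < n, bad7 l ω))) := ⟨_, rfl⟩
  have hPB : Pb (Pool.Agent.H49.Ent.cond F.p A True) Bad ≤ NE * η := by
    rw [hBad]
    have b1 : Pb (Pool.Agent.H49.Ent.cond F.p A True)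
        (fun ω => ∃ i < k₀, ∃ j' < j + 1, bad1 i j' ω) ≤ k₀ * (((j + 1 : ℕ) : ℝ) * η) :=
      Pb_ex25 h0 (fun i ω => ∃ j' < j + 1, bad1 i j' ω) k₀ fun i hi =>
        Pb_ex25 h0 (fun j' ω => bad1 i j' ω) (j + 1) fun j' hj' => hP1 i hi j' hj'
    have b2 : Pb (Pool.Agent.H49.Ent.cond F.p A True)
        (fun ω => ∃ i < k₀, ∃ j' < j + 1, bad2 i j' ω) ≤ k₀ * (((j + 1 : ℕ) : ℝ) * η) :=
      Pb_ex25 h0 (fun i ω => ∃ j' < j + 1, bad2 i j' ω) k₀ fun i hi =>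
        Pb_ex25 h0 (fun j' ω => bad2 i j' ω) (j + 1) fun j' hj' => hP2 i hi j' hj'
    have b5 : Pb (Pool.Agent.H49.Ent.cond F.p A True) (fun ω => ∃ l < n, bad4 l ω) ≤ n * η :=
      Pb_ex25 h0 (fun l ω => bad4 l ω) n fun l hl => hP4 l hl
    have b7 : Pb (Pool.Agent.H49.Ent.cond F.p A True) (fun ω => ∃ l < n, bad7 l ω) ≤ n * η :=
      Pb_ex25 h0 (fun l ω => bad7 l ω) n fun l hl => hP7 l hl
    refine (Pb_or25 h0 _ _).trans ?_
    have b4 := Pb_or25 h0 (fun ω => ∃ i < k₀, ∃ j' < j + 1, bad2 i j' ω)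
      (fun ω => (bad3 ω ∨ ∃ l < n, bad4 l ω) ∨ ((bad5 ω ∨ bad6 ω) ∨ ∃ l < n, bad7 l ω))
    have b8 := Pb_or25 h0 (fun ω => bad3 ω ∨ ∃ l < n, bad4 l ω)
      (fun ω => (bad5 ω ∨ bad6 ω) ∨ ∃ l < n, bad7 l ω)
    have b6 := Pb_or25 h0 bad3 (fun ω => ∃ l < n, bad4 l ω)
    have b9 := Pb_or25 h0 (fun ω => bad5 ω ∨ bad6 ω) (fun ω => ∃ l < n, bad7 l ω)
    have b10 := Pb_or25 h0 bad5 bad6
    push_cast at b1 b2
    rw [hNE]
    linarith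
  -- the closed quantity and the value
  obtain ⟨φ, hφ⟩ := hy J F
  obtain ⟨Zc, hZc⟩ : ∃ Zc : F.Ω → (ℕ → MvPolynomial (Option (Fin m)) ℝ) ×
      ((ℕ → ℕ → MvPolynomial (Option (Fin m)) ℝ) × ((ℕ → MvPolynomial (Option (Fin m)) ℝ) ×
        MvPolynomial (Option (Fin m)) ℝ)), Zc = fun ω => (g (z' (slam F ⌊w * J⌋₊ ω)),
      ((fun i j' => a' i j' (slam F ⌊w * J⌋₊ ω)), ((fun l => tt' l (slam F ⌊w * J⌋₊ ω)),
        G₁ (y₁ (slam F ⌊w * J⌋₊ ω)) - G₂ (y₂ (slam F ⌊w * J⌋₊ ω))))) := ⟨_, rfl⟩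
  obtain ⟨κf, hκf⟩ : ∃ κf : (((ℕ → ℕ → ℤ) × (ℕ → ℤ)) × ℤ) ×
      (((ℕ → MvPolynomial (Option (Fin m)) ℝ) ×
      ((ℕ → ℕ → MvPolynomial (Option (Fin m)) ℝ) × ((ℕ → MvPolynomial (Option (Fin m)) ℝ) ×
        MvPolynomial (Option (Fin m)) ℝ))) × γ J F) → ℝ, κf = fun W =>
      2 ^ (N₂ * J) * ((W.1.2 : ℝ) / 2 ^ (N₁ * J) + (apv c j W.2.1.1 (((φ W.2.2).1 : ℝ) / 2 ^ J)
        (fjt c r₀ ⌊p₀ * J⌋₊ ⌊lam * J⌋₊ (fun i j' => Nv i j' * J) (φ W.2.2).2.1 (φ W.2.2).2.2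
          W.1.1.1)
        (djt r₀ k₀ j W.2.1.2.1 W.2.1.1) k₀
        (elr c (fun i => W.2.1.2.2.1 (i - k₀)) k₀ n W.2.1.2.2.2) +
        ∑ l ∈ range n, bet c (fun i => W.2.1.2.2.1 (i - k₀)) k₀ n W.2.1.2.2.2 l *
          ((W.1.1.2 l : ℝ) / 2 ^ (Nt l * J)))) := ⟨_, rfl⟩
  refine ⟨_, Zc, ⟨?_, ?_⟩, ?_⟩
  · obtain ⟨ψ, hψ⟩ := hf J F
    refine ⟨fun x => (g (z (ψ x)), ((fun i j' => a i j' (ψ x)), ((fun l => tt l (ψ x)),
      G₁ (z₁ (ψ x)) - G₂ (z₂ (ψ x))))), fun ω hω => ?_⟩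
    rw [hZc]
    show (g (z' (slam F ⌊w * J⌋₊ ω)),
      ((fun i j' => a' i j' (slam F ⌊w * J⌋₊ ω)), ((fun l => tt' l (slam F ⌊w * J⌋₊ ω)),
        G₁ (y₁ (slam F ⌊w * J⌋₊ ω)) - G₂ (y₂ (slam F ⌊w * J⌋₊ ω))))) = (g (z (ψ (f J F ω))),
      ((fun i j' => a i j' (ψ (f J F ω))), ((fun l => tt l (ψ (f J F ω))),
        G₁ (z₁ (ψ (f J F ω))) - G₂ (z₂ (ψ (f J F ω))))))
    rw [← hψ ω, hgc ω hω, hl₁'.cls ω hω, hl₂'.cls ω hω]
    refine Prod.ext rfl (Prod.ext ?_ (Prod.ext ?_ rfl))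
    · funext i j'
      exact (hacl i j' ω hω).symm
    · funext l
      exact (httc l ω hω).symm
  · exact ⟨fun s => (g (z' s), ((fun i j' => a' i j' s), ((fun l => tt' l s),
      G₁ (y₁ s) - G₂ (y₂ s)))), fun ω _ => by rw [hZc]; rfl⟩
  have key := CH_near hq u' (fun ω => (((uu ω, vv ω), u ω), (Zc ω, y J F ω))) κf Bad
    (M := KM * J) (D := 3 * 2 ^ ((κ + σ₀) * J)) hPB (by positivity) (by positivity)
    (le_trans (by exact_mod_cast cnt_cond_le F.isLaw u' A) hcu) ?_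
  · refine key.trans ?_
    have e1 : (1 : ℝ) ≤ 2 ^ ((κ + σ₀) * J) := E_one hκ
    have e2 : 2 * (3 * (2 : ℝ) ^ ((κ + σ₀) * J)) + 1 ≤ 7 * 2 ^ ((κ + σ₀) * J) := by linarith
    have e3 := Real.log_le_log (by positivity) e2
    rw [Real.log_mul (by norm_num) (by positivity), ← exp_p2, Real.log_exp] at e3
    have e4 : (κ + σ₀) * J * Real.log 2 ≤ (κ + σ₀) * J * 1 :=
      mul_le_mul_of_nonneg_left (by
        have := Real.log_two_lt_d9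
        linarith) (mul_nonneg hκ hJ0)
    have e5 : NE * η * (KM * J) ≤ h / 2 * J := by
      calc NE * η * (KM * J) = NE * η * KM * J := by ring
        _ ≤ h / 2 * J := mul_le_mul_of_nonneg_right hηK hJ0
    rw [← exp_p2]
    linarith
  -- the good points
  intro ω hω hgood
  have hωA : A ω := of_cond_pos hω
  rw [hBad] at hgood
  push Not at hgood
  obtain ⟨hg1, hg2, ⟨hg3, hg4⟩, ⟨hg5, hg6⟩, hg7⟩ := hgood
  have hcut : ∀ {o : ℝ} {P : ℕ}, |o| ≤ 2 ^ ((ε + j * w) * J) * (1 / 2 ^ P) →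
      |o| ≤ 2 ^ (((j : ℝ) + 1) * J) := by
    intro o P ho
    refine ho.trans ?_
    have e1 : (1 : ℝ) / 2 ^ P ≤ 1 := by
      rw [div_le_one (by positivity)]
      exact one_le_pow₀ (by norm_num)
    have e2 : (j : ℝ) * w ≤ j * 1 := mul_le_mul_of_nonneg_left hw1.le hj0
    calc (2 : ℝ) ^ ((ε + j * w) * J) * (1 / 2 ^ P) ≤ 2 ^ ((ε + j * w) * J) * 1 :=
          mul_le_mul_of_nonneg_left e1 (E_pos J _).le
      _ ≤ 2 ^ (((j : ℝ) + 1) * J) := by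
          rw [mul_one]
          exact E_mono J (by linarith)
  obtain ⟨sl, hsl⟩ : ∃ sl, sl = slam F ⌊w * J⌋₊ ω := ⟨_, rfl⟩
  obtain ⟨σf, hσf⟩ : ∃ σf : ℕ → ℝ, σf = fun i => if i < r₀ then 16 * 2 ^ (-Λ * J) else
    2 ^ (-lv i * J) := ⟨_, rfl⟩
  have hσb : ∀ i < r₀, σf i = 16 * 2 ^ (-Λ * J) := fun i hi => by rw [hσf]; exact if_pos hi
  have hσc : ∀ i, r₀ ≤ i → σf i = 2 ^ (-lv i * J) := fun i hi => by
    rw [hσf]
    exact if_neg (not_lt.2 hi)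
  have hσ0 : ∀ i, 0 < σf i := by
    intro i
    rcases Nat.lt_or_ge i r₀ with h' | h'
    · rw [hσb i h']
      have := E_pos J (-Λ)
      positivity
    · rw [hσc i h']
      exact E_pos J _
  have hEΛ := E_pos J (-Λ)
  obtain ⟨τf, hτf⟩ : ∃ τf : ℕ → ℝ, τf = fun i => 16 * 2 ^ (-Λ * J) + ∑ l ∈ range i, σf l :=
    ⟨_, rfl⟩
  have hτ0 : ∀ i, 0 < τf i := fun i => by
    rw [hτf]
    have := Finset.sum_nonneg (s := range i) fun l _ => (hσ0 l).le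
    show 0 < 16 * (2 : ℝ) ^ (-Λ * J) + ∑ l ∈ range i, σf l
    linarith
  have hτσ : ∀ i, ∀ l < i, σf l ≤ τf i := fun i l hl => by
    have e1 := Finset.single_le_sum (f := σf) (s := range i) (fun l _ => (hσ0 l).le)
      (mem_range.2 hl)
    rw [hτf]
    show σf l ≤ 16 * (2 : ℝ) ^ (-Λ * J) + ∑ l ∈ range i, σf l
    linarith
  -- the sizes of the terms
  have hterm : ∀ l < k₀, σf l ≤ 16 * 2 ^ (-ν * J) := by
    intro l hl
    rcases Nat.lt_or_ge l r₀ with h' | h'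
    · rw [hσb l h']
      exact mul_le_mul_of_nonneg_left (E_mono J (by linarith)) (by norm_num)
    · rw [hσc l h']
      have e1 := E_mono J (show -lv l ≤ -ν by linarith [hνl l hl h'])
      have e2 := E_pos J (-ν)
      linarith
  have hτ1 : ∀ i ≤ k₀, 4 * ((j : ℝ) + 1) * τf i ≤ 1 := by
    intro i hi
    have e1 : 64 * ((j : ℝ) + 1) * 2 ^ (-ν * J) ≤ 1 / (k₀ + 1) := by
      rw [le_div_iff₀ (by positivity)]
      have e2 := mul_le_mul_of_nonneg_right f2 (E_pos J (-ν)).le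
      rw [E_add] at e2
      have e3 : (ν + -ν) * (J : ℝ) = 0 := by ring
      rw [e3, Real.rpow_zero] at e2
      linarith
    have e2 := tau_le hi (σ := σf) (σb := 16 * 2 ^ (-Λ * J)) (Y := 4 * ((j : ℝ) + 1))
      (Z := 1 / (k₀ + 1)) (by positivity) (by
        refine le_trans ?_ e1
        have e4 := E_mono J (show -Λ ≤ -ν by linarith)
        have e5 := mul_le_mul_of_nonneg_left e4 (show (0 : ℝ) ≤ 64 * (j + 1) by positivity)
        linarith) (fun l hl => by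
        refine le_trans ?_ e1
        have e4 := hterm l (by omega)
        have e5 := mul_le_mul_of_nonneg_left e4 (show (0 : ℝ) ≤ 4 * (j + 1) by positivity)
        linarith)
    rw [hτf]
    refine e2.trans (le_of_eq ?_)
    field_simp
  have hσX : ∀ l, r₀ ≤ l → σf l ≤ 16 * 2 ^ (-(lv l - σ₀ / 8) * J) := by
    intro l hl
    rw [hσc l hl]
    have e1 := E_mono J (show -lv l ≤ -(lv l - σ₀ / 8) by linarith)
    have e2 := E_pos J (-(lv l - σ₀ / 8))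
    linarith
  have hσY : 16 * (2 : ℝ) ^ (-Λ * J) ≤ 16 * 2 ^ (-(min lam (p₀ - u₀) - σ₀ / 8) * J) :=
    mul_le_mul_of_nonneg_left (E_mono J (by linarith)) (by norm_num)
  obtain ⟨M, hM⟩ : ∃ M : ℝ, M = 2 ^ (ε * J) := ⟨_, rfl⟩
  have hM1 : 1 ≤ M := by rw [hM]; exact E_one hε0.le
  have hd8 : ∀ i, r₀ ≤ i → i < k₀ + n → d i ≤ σ₀ / 8 ∧ 0 < d i := fun i a b => ⟨(hd i a b).2,
    (hd i a b).1⟩
  have hU4 : (2 : ℝ) ^ (u₂ * J) ≤ 4 * 2 ^ ⌊u₂ * J⌋₊ := E_floor_ge J u₂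
  have hUle : (2 : ℝ) ^ ⌊u₂ * J⌋₊ ≤ 2 ^ (u₂ * J) := E_floor_le hu20
  have hgg' : ∀ i, r₀ ≤ i → i < k₀ + n → (2 : ℝ) ^ (-s i * J) ≤ 1 / 2 ^ gg i := by
    intro i hi0 hi
    rw [hgg]
    exact E_inv_floor_ge (hch.s0 i hi0 hi).1 (by linarith [(hd8 i hi0 hi).2])
  -- the elimination of the targets
  obtain ⟨L, hL⟩ : ∃ L : ℝ, L = 4 * 2 ^ ((θ + 2 * e₀) * J) := ⟨_, rfl⟩
  have hL1 : 1 ≤ L := by
    have := E_one (J := J) (a := θ + 2 * e₀) (by linarith)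
    rw [hL]
    linarith
  obtain ⟨B, hB⟩ : ∃ B : ℝ, B = 2 ^ (ε * J) * (1 / 2 ^ ⌊(p₁ - σ₀ / 8) * J⌋₊ +
    1 / 2 ^ ⌊(p₂ - σ₀ / 8) * J⌋₊) := ⟨_, rfl⟩
  have hB0 : 0 ≤ B := by
    rw [hB]
    have := E_pos J ε
    positivity
  obtain ⟨HH, hHH⟩ : ∃ HH, HH = G₁ (y₁ sl) - G₂ (y₂ sl) := ⟨_, rfl⟩
  obtain ⟨ta, hta⟩ : ∃ ta : ℕ → MvPolynomial (Option (Fin m)) ℝ, ta = fun i => tt' (i - k₀) sl :=
    ⟨_, rfl⟩
  have hNBω : NB F c r₀ (k₀ + n) ⌊u₂ * J⌋₊ (fun i => 2 / 2 ^ gg i) (g (z' sl)) ω (bt F ω) := by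
    refine ⟨?_, fun i hi => ?_, fun i hi hi' => ?_⟩
    · have e1 : bt F ω none - F.t ω = 0 := sub_self _
      rw [e1, abs_zero]
      positivity
    · have h5 := xr_near F ω (some (c i))
      rw [abs_sub_comm] at h5
      exact h5.trans (Pool.PB.inv_mono hUJ.le)
    · have h5 := (hlab i hi hi').pos ω hωA
      rw [← hsl] at h5
      have e1 : bt F ω (some (c i)) = F.x ω (c i) := rfl
      rw [e1]
      have e2 : (1 : ℝ) / 2 ^ gg i ≤ 2 / 2 ^ gg i :=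
        div_le_div_of_nonneg_right (by norm_num) (by positivity)
      refine le_trans ?_ e2
      rw [hgg]
      exact h5
  have hμδ : ∀ l < n, 1 + 2 * (2 ^ (ε * J) * (1 / 2 ^ ⌊(pt l - e₀) * J⌋₊ + 1 / 2 ^ gg (k₀ + l)) /
      (2 / 2 ^ gg (k₀ + l))) ≤ L := by
    intro l hl
    have e1 : (2 : ℝ) * (2 ^ (ε * J) * (1 / 2 ^ ⌊(pt l - e₀) * J⌋₊ + 1 / 2 ^ gg (k₀ + l)) /
        (2 / 2 ^ gg (k₀ + l))) = 2 ^ (ε * J) * (2 ^ gg (k₀ + l) * (1 / 2 ^ ⌊(pt l - e₀) * J⌋₊) +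
          1) := by
      field_simp
    have e2 : (2 : ℝ) ^ gg (k₀ + l) ≤ 2 ^ (s (k₀ + l) * J) := by
      have e3 := hgg' (k₀ + l) (by omega) (by omega)
      rw [neg_mul, Real.rpow_neg (by norm_num), ← one_div] at e3
      exact (one_div_le_one_div (E_pos J _) (by positivity)).1 e3
    have e3 := E_inv_floor J (pt l - e₀)
    have e4 : (2 : ℝ) ^ gg (k₀ + l) * (1 / 2 ^ ⌊(pt l - e₀) * J⌋₊) ≤
        2 * 2 ^ ((θ + e₀) * J) := by
      refine (mul_le_mul e2 e3 (by positivity) (E_pos J _).le).trans ?_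
      rw [mul_left_comm, E_add]
      exact mul_le_mul_of_nonneg_left (E_mono J (by linarith [hpt l hl])) (by norm_num)
    have e5 := E_one (J := J) (a := θ + e₀) (by linarith)
    have e6 : (2 : ℝ) ^ (ε * J) * (2 ^ gg (k₀ + l) * (1 / 2 ^ ⌊(pt l - e₀) * J⌋₊) + 1) ≤
        2 ^ (e₀ * J) * (3 * 2 ^ ((θ + e₀) * J)) :=
      mul_le_mul (E_mono J hεe) (by linarith) (by positivity) (E_pos J _).le
    have e7 : (2 : ℝ) ^ (e₀ * J) * (3 * 2 ^ ((θ + e₀) * J)) = 3 * 2 ^ ((θ + 2 * e₀) * J) := by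
      rw [mul_left_comm, E_add]
      congr 3
      ring
    have e8 := E_one (J := J) (a := θ + 2 * e₀) (by linarith)
    rw [e1, hL]
    linarith
  obtain ⟨el1', el2, el3, el4⟩ := el_pt (J := J) (F := F) (ω := ω) (c := c) (r₀ := r₀) (k₀ := k₀)
    (U := ⌊u₂ * J⌋₊) (a := ta) (g := g (z' sl)) (δ := fun i => 2 / 2 ^ gg i)
    (μ := fun i => 2 ^ (ε * J) * (1 / 2 ^ ⌊(pt (i - k₀) - e₀) * J⌋₊ + 1 / 2 ^ gg i)) (L := L) hk0
    hL1 n hch.inj (fun l hl hl' => by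
      rw [hta]
      obtain ⟨b1, b2⟩ := htdep (l - k₀) (by omega) sl
      rw [show k₀ + (l - k₀) = l by omega] at b1
      exact ⟨b2, b1⟩) (fun l hl hl' => hgdep l hl hl' _) (fun l hl hl' => by positivity)
    (fun l hl hl' x hx => by
      have b1 := hg4 (l - k₀) (by omega)
      rw [hbad4] at b1
      simp only [not_not] at b1
      rw [← hsl] at b1
      rw [hta]
      have b2 := b1 x
      rw [show k₀ + (l - k₀) = l by omega] at b2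
      exact b2 hx)
    (fun l hl hl' => by
      have b1 := hμδ (l - k₀) (by omega)
      rw [show k₀ + (l - k₀) = l by omega] at b1
      exact b1) ⟨_, hNBω⟩ HH (by rw [hHH]; exact (hG12 _ _).2) (by rw [hHH]; exact (hG12 _ _).1)
    hB0 (fun x hx => by
      rw [hbad3] at hg3
      simp only [not_not] at hg3
      rw [← hsl] at hg3
      rw [hHH, hB]
      exact hg3 x hx)
  have hpj := hjpt J F ω c r₀ ⌊u₂ * J⌋₊ ⌊p₀ * J⌋₊ ⌊lam * J⌋₊ gg (g (z' sl))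
    (fun i j' => a' i j' sl) (elr c ta k₀ n HH) (uu ω) (fun i j' => Nv i j' * J) σf τf
    (fun i j' => 2 ^ (ε * J) * (1 / 2 ^ ⌊(pv i j' - σ₀ / 8) * J⌋₊ + 1 / 2 ^ gg i)) M
    (B * L ^ n) hk0 (hch.inj.mono (Set.Iio_subset_Iio (by omega))) hUJ
    (fun i hi => hg0 _ i (Or.inl hi)) (fun i a b => hgdep i a (by omega) _)
    (fun i hi => hgdeg i hi _)
    (fun i a b j' hj' => (hadep i a b j' hj' _).1)
    (fun i a b j' hj' => (hadep i a b j' hj' _).2.trans (le_max_left _ _))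
    el2 (el1'.trans (le_max_right _ _)) hM1 (fun i _ => hτ0 i) hτ1 (fun i _ => hτσ i)
    (fun i _ => hσ0 i) (fun i _ _ j' _ => by positivity) ?_ el3 ?_ ?_ ?_ ?_ ?_ ?_
  · -- the end
    obtain ⟨o₁, ho₁⟩ : ∃ o, o = ojet F k j (G₁ (y₁ sl)) ω := ⟨_, rfl⟩
    obtain ⟨o₂, ho₂⟩ : ∃ o, o = ojet F k j (G₂ (y₂ sl)) ω := ⟨_, rfl⟩
    obtain ⟨jt, hjt⟩ : ∃ jt, jt = jet j (elr c ta k₀ n HH) (bt F ω) (bd F ω) := ⟨_, rfl⟩
    obtain ⟨bs, hbs⟩ : ∃ bs, bs = ∑ l ∈ range n, bet c ta k₀ n HH l *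
      ojet F (c (k₀ + l)) j (tt' l sl) ω := ⟨_, rfl⟩
    have e1 : o₂ = o₁ + (jt + bs) := by
      rw [ho₁, ho₂, ojet_sub F k j (G₁ (y₁ sl)) (G₂ (y₂ sl)) ω, ← hHH,
        jet_elr c ta k₀ j (bt F ω) (bd F ω) n HH, hjt, hbs]
      congr 2
      refine Finset.sum_congr rfl fun l _ => ?_
      rw [hta]
      simp only [Nat.add_sub_cancel_left]
      rfl
    have e2 : u' ω = ⌊(2 : ℝ) ^ (N₂ * J) * o₂⌋ := by
      rw [hu₂' ω hωA, ← g2, ← hsl, ← ho₂]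
      rw [hbad6] at hg6
      simp only [not_not] at hg6
      rw [← hsl, ← ho₂] at hg6
      exact cfl_eq (hcut hg6)
    have e3 : u ω = ⌊(2 : ℝ) ^ (N₁ * J) * o₁⌋ := by
      rw [hu₁ ω hωA, ← g1, ← hsl, ← ho₁]
      rw [hbad5] at hg5
      simp only [not_not] at hg5
      rw [← hsl, ← ho₁] at hg5
      exact cfl_eq (hcut hg5)
    obtain ⟨av, hav⟩ : ∃ av, av = apv c j (g (z' sl)) ((F.T ω : ℝ) / 2 ^ J)
      (fjt c r₀ ⌊p₀ * J⌋₊ ⌊lam * J⌋₊ (fun i j' => Nv i j' * J) (fun i => F.X ⌊p₀ * J⌋₊ ω i)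
        (fun i => F.D ⌊lam * J⌋₊ ω i) (uu ω)) (djt r₀ k₀ j (fun i j' => a' i j' sl) (g (z' sl)))
      k₀ (elr c ta k₀ n HH) := ⟨_, rfl⟩
    obtain ⟨bv, hbv⟩ : ∃ bv, bv = ∑ l ∈ range n, bet c ta k₀ n HH l *
      ((vv ω l : ℝ) / 2 ^ (Nt l * J)) := ⟨_, rfl⟩
    rw [← hav, ← hjt] at hpj
    have e4 : κf (((uu ω, vv ω), u ω), (Zc ω, y J F ω)) =
        2 ^ (N₂ * J) * ((u ω : ℝ) / 2 ^ (N₁ * J) + (av + bv)) := by
      rw [hκf, hav, hbv, hZc]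
      show (2 : ℝ) ^ (N₂ * J) * ((u ω : ℝ) / 2 ^ (N₁ * J) + (apv c j
        (g (z' (slam F ⌊w * J⌋₊ ω))) (((φ (y J F ω)).1 : ℝ) / 2 ^ J)
        (fjt c r₀ ⌊p₀ * J⌋₊ ⌊lam * J⌋₊ (fun i j' => Nv i j' * J) (φ (y J F ω)).2.1
          (φ (y J F ω)).2.2 (uu ω))
        (djt r₀ k₀ j (fun i j' => a' i j' (slam F ⌊w * J⌋₊ ω)) (g (z' (slam F ⌊w * J⌋₊ ω)))) k₀
        (elr c (fun i => tt' (i - k₀) (slam F ⌊w * J⌋₊ ω)) k₀ n
          (G₁ (y₁ (slam F ⌊w * J⌋₊ ω)) - G₂ (y₂ (slam F ⌊w * J⌋₊ ω)))) +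
        ∑ l ∈ range n, bet c (fun i => tt' (i - k₀) (slam F ⌊w * J⌋₊ ω)) k₀ n
          (G₁ (y₁ (slam F ⌊w * J⌋₊ ω)) - G₂ (y₂ (slam F ⌊w * J⌋₊ ω))) l *
          ((vv ω l : ℝ) / 2 ^ (Nt l * J)))) = _
      rw [hφ ω, ← hsl, ← hHH, ← hta]
      congr 4
      refine fjt_congr (fun i hi => ?_) (fun i hi => ?_) (uu ω)
      · exact if_pos (mem_image_of_mem c (mem_range.2 hi))
      · exact if_pos (mem_image_of_mem c (mem_range.2 hi))
    rw [e4]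
    have hA2 := E_pos J N₂
    have hA1 := E_pos J N₁
    have b1 : |(u' ω : ℝ) - 2 ^ (N₂ * J) * o₂| ≤ 1 := by
      rw [e2]
      have c1 := Int.floor_le ((2 : ℝ) ^ (N₂ * J) * o₂)
      have c2 := Int.lt_floor_add_one ((2 : ℝ) ^ (N₂ * J) * o₂)
      rw [abs_le]
      constructor <;> linarith
    have b2 : |(2 : ℝ) ^ (N₂ * J) * (o₁ - (u ω : ℝ) / 2 ^ (N₁ * J))| ≤ 1 := by
      have c1 := Int.floor_le ((2 : ℝ) ^ (N₁ * J) * o₁)
      have c2 := Int.lt_floor_add_one ((2 : ℝ) ^ (N₁ * J) * o₁)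
      rw [← e3] at c1 c2
      have c3 : |(2 : ℝ) ^ (N₁ * J) * o₁ - u ω| ≤ 1 := by
        rw [abs_le]
        constructor <;> linarith
      have c4 : (2 : ℝ) ^ (N₂ * J) * (o₁ - (u ω : ℝ) / 2 ^ (N₁ * J)) =
          2 ^ (N₂ * J) / 2 ^ (N₁ * J) * ((2 : ℝ) ^ (N₁ * J) * o₁ - u ω) := by
        field_simp
      rw [c4, abs_mul, abs_of_pos (by positivity)]
      have c5 : (2 : ℝ) ^ (N₂ * J) / 2 ^ (N₁ * J) ≤ 1 := by
        rw [div_le_one hA1]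
        exact E_mono J hN
      calc (2 : ℝ) ^ (N₂ * J) / 2 ^ (N₁ * J) * |(2 : ℝ) ^ (N₁ * J) * o₁ - u ω| ≤ 1 * 1 :=
            mul_le_mul c5 c3 (abs_nonneg _) zero_le_one
        _ = 1 := one_mul 1
    have hLn : L ^ n ≤ 4 ^ n * 2 ^ ((n * θ + σ₀ / 8) * J) := by
      rw [hL, mul_pow, E_pow]
      refine mul_le_mul_of_nonneg_left (E_mono J ?_) (by positivity)
      have d1 : (n : ℝ) * e₀ ≤ σ₀ / 16 := by linarith
      have d2 : (n : ℝ) * (θ + 2 * e₀) = n * θ + 2 * (n * e₀) := by ring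
      linarith
    have b3 : |(2 : ℝ) ^ (N₂ * J) * (jt - av)| ≤ 1 / 2 * 2 ^ ((κ + σ₀) * J) := by
      rw [abs_mul, abs_of_pos hA2]
      obtain ⟨Z, hZ⟩ : ∃ Z : ℝ, Z = 64 * C * 2 ^ ((3 * σ₀ / 8 + (κ - n * θ) - N₂ - j * u₀) * J) :=
        ⟨_, rfl⟩
      have hEZ := E_pos J (3 * σ₀ / 8 + (κ - n * θ) - N₂ - j * u₀)
      have hZ0 : 0 ≤ Z := by rw [hZ]; positivity
      have c1 := tau_le (r := k₀) (i := k₀) le_rfl (σ := σf) (σb := 16 * 2 ^ (-Λ * J))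
        (Y := C * M ^ j * (2 ^ (ε * J) * (1 / 2 ^ ⌊(p₁ - σ₀ / 8) * J⌋₊ +
          1 / 2 ^ ⌊(p₂ - σ₀ / 8) * J⌋₊))) (Z := Z) hZ0 (by
          rw [hM]
          refine (arith_core (μ := min p₁ p₂) hC0 (min_le_left _ _) (min_le_right _ _) le_rfl
            le_rfl hε1 (by positivity) hσY).trans ?_
          rw [hZ]
          exact mul_le_mul_of_nonneg_left (E_mono J (by linarith)) (by positivity))
        (fun l hl => by
          rw [hM]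
          rcases Nat.lt_or_ge l r₀ with h' | h'
          · rw [hσb l h']
            refine (arith_core (μ := min p₁ p₂) hC0 (min_le_left _ _) (min_le_right _ _) le_rfl
              le_rfl hε1 (by positivity) hσY).trans ?_
            rw [hZ]
            exact mul_le_mul_of_nonneg_left (E_mono J (by linarith)) (by positivity)
          · refine (arith_core (μ := min p₁ p₂) hC0 (min_le_left _ _) (min_le_right _ _) le_rfl
              le_rfl hε1 (hσ0 l).le (hσX l h')).trans ?_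
            rw [hZ]
            exact mul_le_mul_of_nonneg_left (E_mono J (by linarith [h3' l h' hl])) (by positivity))
      have c2 : (4 * (2 : ℝ) ^ ⌊u₂ * J⌋₊) ^ j ≤ 4 ^ j * 2 ^ (j * u₂ * J) := by
        rw [mul_pow, ← E_pow]
        exact mul_le_mul_of_nonneg_left (pow_le_pow_left₀ (by positivity) hUle j) (by positivity)
      have c3 : |jt - av| ≤ (k₀ + 1) * Z * (4 ^ n * 2 ^ ((n * θ + σ₀ / 8) * J)) *
          (4 ^ j * 2 ^ (j * u₂ * J)) := by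
        refine hpj.trans (mul_le_mul ?_ c2 (by positivity) (by
          have := E_pos J (n * θ + σ₀ / 8)
          positivity))
        have c4 : C * M ^ j * (B * L ^ n * τf k₀) = (C * M ^ j * B * τf k₀) * L ^ n := by ring
        rw [c4]
        refine mul_le_mul ?_ hLn (by positivity) (by positivity)
        refine le_trans (le_of_eq ?_) c1
        rw [hτf, hB]
      have hju : (j : ℝ) * u₂ ≤ j * u₀ + σ₀ / 8 := by
        have d1 : (j : ℝ) * υ ≤ σ₀ / 8 := by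
          refine le_trans ?_ hε1
          calc (j : ℝ) * υ ≤ j * ε := mul_le_mul_of_nonneg_left hυ1 hj0
            _ ≤ (j + 1) * ε := mul_le_mul_of_nonneg_right (by linarith) hε0.le
        rw [hu₂, mul_add]
        linarith
      calc (2 : ℝ) ^ (N₂ * J) * |jt - av|
          ≤ 2 ^ (N₂ * J) * ((k₀ + 1) * Z * (4 ^ n * 2 ^ ((n * θ + σ₀ / 8) * J)) *
            (4 ^ j * 2 ^ (j * u₂ * J))) := mul_le_mul_of_nonneg_left c3 hA2.le
        _ = 1 / 2 * ((128 * C * (k₀ + 1) * 4 ^ j * 4 ^ n) * (2 ^ (N₂ * J) *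
            2 ^ ((3 * σ₀ / 8 + (κ - n * θ) - N₂ - j * u₀) * J) * 2 ^ ((n * θ + σ₀ / 8) * J) *
            2 ^ (j * u₂ * J))) := by
            rw [hZ]
            ring
        _ = 1 / 2 * ((128 * C * (k₀ + 1) * 4 ^ j * 4 ^ n) *
            2 ^ ((σ₀ / 2 + κ + (j * u₂ - j * u₀)) * J)) := by
            rw [E_add, E_add, E_add]
            congr 4
            ring
        _ ≤ 1 / 2 * (2 ^ (σ₀ / 4 * J) * 2 ^ ((3 * σ₀ / 4 + κ) * J)) := by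
            refine mul_le_mul_of_nonneg_left (mul_le_mul f4 (E_mono J (by linarith))
              (E_pos J _).le (E_pos J _).le) (by norm_num)
        _ = 1 / 2 * 2 ^ ((κ + σ₀) * J) := by
            rw [E_add]
            congr 3
            ring
    have b7 : |(2 : ℝ) ^ (N₂ * J) * (bs - bv)| ≤ 1 / 2 * 2 ^ ((κ + σ₀) * J) := by
      have hB2 : B ≤ 4 * 2 ^ ((e₀ + σ₀ / 8 - min p₁ p₂) * J) := by
        have g1 : 1 / (2 : ℝ) ^ ⌊(p₁ - σ₀ / 8) * J⌋₊ ≤ 2 * 2 ^ ((σ₀ / 8 - min p₁ p₂) * J) :=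
          (E_inv_floor J (p₁ - σ₀ / 8)).trans (mul_le_mul_of_nonneg_left (E_mono J (by
            have := min_le_left p₁ p₂
            linarith)) (by norm_num))
        have g2 : 1 / (2 : ℝ) ^ ⌊(p₂ - σ₀ / 8) * J⌋₊ ≤ 2 * 2 ^ ((σ₀ / 8 - min p₁ p₂) * J) :=
          (E_inv_floor J (p₂ - σ₀ / 8)).trans (mul_le_mul_of_nonneg_left (E_mono J (by
            have := min_le_right p₁ p₂
            linarith)) (by norm_num))
        rw [hB]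
        have g3 := E_pos J (σ₀ / 8 - min p₁ p₂)
        calc (2 : ℝ) ^ (ε * J) * (1 / 2 ^ ⌊(p₁ - σ₀ / 8) * J⌋₊ + 1 / 2 ^ ⌊(p₂ - σ₀ / 8) * J⌋₊)
            ≤ 2 ^ (e₀ * J) * (4 * 2 ^ ((σ₀ / 8 - min p₁ p₂) * J)) :=
              mul_le_mul (E_mono J hεe) (by linarith) (by positivity) (E_pos J _).le
          _ = 4 * 2 ^ ((e₀ + σ₀ / 8 - min p₁ p₂) * J) := by
              rw [mul_left_comm, E_add]
              congr 3
              ring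
      have hterm2 : ∀ l ∈ range n, |2 ^ (N₂ * J) * (bet c ta k₀ n HH l *
          (ojet F (c (k₀ + l)) j (tt' l sl) ω - (vv ω l : ℝ) / 2 ^ (Nt l * J)))| ≤
          4 * 4 ^ n * 2 ^ ((κ + σ₀ / 2) * J) * 2 := by
        intro l hl
        have hln := mem_range.1 hl
        obtain ⟨-, -, b1⟩ := httin l hln
        obtain ⟨o, ho⟩ : ∃ o, o = ojet F (c (k₀ + l)) j (tt' l sl) ω := ⟨_, rfl⟩
        have hv : vv ω l = ⌊(2 : ℝ) ^ (Nt l * J) * o⌋ := by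
          rw [b1 ω hωA, ← hsl, ← ho]
          have b2 := hg7 l hln
          rw [hbad7] at b2
          simp only [not_not] at b2
          rw [← hsl, ← ho] at b2
          exact cfl_eq (hcut b2)
        have hN0 := E_pos J (Nt l)
        have c1 := Int.floor_le ((2 : ℝ) ^ (Nt l * J) * o)
        have c2 := Int.lt_floor_add_one ((2 : ℝ) ^ (Nt l * J) * o)
        have g1 : |o - (vv ω l : ℝ) / 2 ^ (Nt l * J)| ≤ 2 ^ (-Nt l * J) := by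
          have c3 : o - (vv ω l : ℝ) / 2 ^ (Nt l * J) =
              (2 ^ (Nt l * J) * o - ((⌊(2 : ℝ) ^ (Nt l * J) * o⌋ : ℤ) : ℝ)) /
                2 ^ (Nt l * J) := by
            rw [hv]
            field_simp
          have c4 : (2 : ℝ) ^ (-Nt l * J) = 1 / 2 ^ (Nt l * J) := by
            rw [neg_mul, Real.rpow_neg (by norm_num), one_div]
          rw [c3, c4, abs_div, abs_of_pos hN0]
          refine div_le_div_of_nonneg_right ?_ hN0.le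
          rw [abs_le]
          constructor <;> linarith
        have g2 := el4 l hln
        have g3 : |bet c ta k₀ n HH l| ≤ 2 * (B * L ^ n) * 2 ^ (s (k₀ + l) * J) := by
          have e3 := hgg' (k₀ + l) (by omega) (by omega)
          rw [neg_mul, Real.rpow_neg (by norm_num), ← one_div] at e3
          have e4 := (one_div_le_one_div (E_pos J _) (by positivity)).1 e3
          have e5 : |bet c ta k₀ n HH l| * (2 / 2 ^ gg (k₀ + l)) ≤ 2 * (B * L ^ n) := g2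
          have e6 : |bet c ta k₀ n HH l| = |bet c ta k₀ n HH l| * (2 / 2 ^ gg (k₀ + l)) *
              (2 ^ gg (k₀ + l) / 2) := by
            field_simp
          rw [e6]
          refine mul_le_mul e5 ?_ (by positivity) (by positivity)
          have e7 : (2 : ℝ) ^ gg (k₀ + l) / 2 ≤ 2 ^ gg (k₀ + l) := by
            have : (0 : ℝ) < 2 ^ gg (k₀ + l) := by positivity
            linarith
          exact e7.trans e4
        rw [abs_mul, abs_of_pos hA2, abs_mul, ← ho]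
        have g4 : B * L ^ n ≤ 4 * 2 ^ ((e₀ + σ₀ / 8 - min p₁ p₂) * J) *
            (4 ^ n * 2 ^ ((n * θ + σ₀ / 8) * J)) :=
          mul_le_mul hB2 hLn (by positivity) (by
            have := E_pos J (e₀ + σ₀ / 8 - min p₁ p₂)
            positivity)
        have q1 := E_pos J (e₀ + σ₀ / 8 - min p₁ p₂)
        have q2 := E_pos J (n * θ + σ₀ / 8)
        have q3 := E_pos J (s (k₀ + l))
        have q4 := E_pos J (-Nt l)
        calc (2 : ℝ) ^ (N₂ * J) * (|bet c ta k₀ n HH l| * |o - (vv ω l : ℝ) / 2 ^ (Nt l * J)|)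
            ≤ 2 ^ (N₂ * J) * (2 * (4 * 2 ^ ((e₀ + σ₀ / 8 - min p₁ p₂) * J) *
              (4 ^ n * 2 ^ ((n * θ + σ₀ / 8) * J))) * 2 ^ (s (k₀ + l) * J) *
              2 ^ (-Nt l * J)) := by
              refine mul_le_mul_of_nonneg_left (mul_le_mul (g3.trans ?_) g1 (abs_nonneg _)
                (by positivity)) hA2.le
              exact mul_le_mul_of_nonneg_right (mul_le_mul_of_nonneg_left g4 (by norm_num)) q3.le
          _ = 4 * 4 ^ n * (2 ^ (N₂ * J) * 2 ^ ((e₀ + σ₀ / 8 - min p₁ p₂) * J) *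
              2 ^ ((n * θ + σ₀ / 8) * J) * 2 ^ (s (k₀ + l) * J) * 2 ^ (-Nt l * J)) * 2 := by ring
          _ = 4 * 4 ^ n * 2 ^ ((N₂ + (e₀ + σ₀ / 8 - min p₁ p₂) + (n * θ + σ₀ / 8) +
              s (k₀ + l) + -Nt l) * J) * 2 := by
              rw [E_add, E_add, E_add, E_add]
          _ ≤ 4 * 4 ^ n * 2 ^ ((κ + σ₀ / 2) * J) * 2 := by
              refine mul_le_mul_of_nonneg_right (mul_le_mul_of_nonneg_left (E_mono J ?_)
                (by positivity)) (by norm_num)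
              linarith [h4 l hln]
      have e6 : (2 : ℝ) ^ (N₂ * J) * (bs - bv) = ∑ l ∈ range n, 2 ^ (N₂ * J) *
          (bet c ta k₀ n HH l *
          (ojet F (c (k₀ + l)) j (tt' l sl) ω - (vv ω l : ℝ) / 2 ^ (Nt l * J))) := by
        rw [hbs, hbv, ← Finset.sum_sub_distrib, Finset.mul_sum]
        refine Finset.sum_congr rfl fun l _ => ?_
        ring
      rw [e6]
      refine (Finset.abs_sum_le_sum_abs _ _).trans ((Finset.sum_le_sum hterm2).trans ?_)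
      rw [Finset.sum_const, card_range, nsmul_eq_mul]
      have q1 := E_pos J (κ + σ₀ / 2)
      calc (n : ℝ) * (4 * 4 ^ n * 2 ^ ((κ + σ₀ / 2) * J) * 2)
          = 1 / 2 * ((16 * n * 4 ^ n) * 2 ^ ((κ + σ₀ / 2) * J)) := by ring
        _ ≤ 1 / 2 * (2 ^ (σ₀ / 2 * J) * 2 ^ ((κ + σ₀ / 2) * J)) :=
          mul_le_mul_of_nonneg_left (mul_le_mul_of_nonneg_right f6 q1.le) (by norm_num)
        _ = 1 / 2 * 2 ^ ((κ + σ₀) * J) := by
          rw [E_add]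
          congr 3
          ring
    have b4 : (1 : ℝ) ≤ 2 ^ ((κ + σ₀) * J) := E_one hκ
    have e5 : (u' ω : ℝ) - 2 ^ (N₂ * J) * ((u ω : ℝ) / 2 ^ (N₁ * J) + (av + bv)) =
        ((u' ω : ℝ) - 2 ^ (N₂ * J) * o₂) + ((2 : ℝ) ^ (N₂ * J) * (o₁ - (u ω : ℝ) / 2 ^ (N₁ * J)) +
          (2 ^ (N₂ * J) * (jt - av) + 2 ^ (N₂ * J) * (bs - bv))) := by
      rw [e1]
      ring
    rw [e5]
    refine (abs_add_le _ _).trans ?_
    have b5 := abs_add_le ((2 : ℝ) ^ (N₂ * J) * (o₁ - (u ω : ℝ) / 2 ^ (N₁ * J)))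
      (2 ^ (N₂ * J) * (jt - av) + 2 ^ (N₂ * J) * (bs - bv))
    have b6 := abs_add_le ((2 : ℝ) ^ (N₂ * J) * (jt - av)) (2 ^ (N₂ * J) * (bs - bv))
    linarith
  · -- the boxes
    intro i hi0 hi j' hj' x hx
    have b1 := hg1 i hi j' (by omega)
    rw [hbad1] at b1
    simp only [not_and, not_not] at b1
    rw [hsl] at hx ⊢
    exact b1 ⟨hi0, hj'⟩ x hx
  · intro i hi0 hi
    rw [hsl, hgg]
    exact (hlab i hi0 (by omega)).pos ω hωA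
  · -- the own jets
    intro i hi0 hi j' hj1 hj'
    have b1 := hg2 i hi j' (by omega)
    rw [hbad2] at b1
    simp only [not_and, not_not] at b1
    have b2 := b1 hi0
    rw [← hsl] at b2
    refine b2.trans ?_
    have b3 : (2 : ℝ) ^ ((ε + j' * w) * J) ≤ M * (4 * 2 ^ ⌊u₂ * J⌋₊) ^ j' := by
      rw [← E_add, hM]
      refine mul_le_mul_of_nonneg_left ?_ (E_pos J _).le
      calc (2 : ℝ) ^ (j' * w * J) ≤ 2 ^ (j' * u₂ * J) :=
            E_mono J (mul_le_mul_of_nonneg_left (by linarith) (Nat.cast_nonneg j'))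
        _ = (2 ^ (u₂ * J)) ^ j' := (E_pow J u₂ j').symm
        _ ≤ _ := pow_le_pow_left₀ (E_pos J _).le hU4 j'
    calc (2 : ℝ) ^ ((ε + j' * w) * J) * (1 / 2 ^ gg i)
        ≤ M * (4 * 2 ^ ⌊u₂ * J⌋₊) ^ j' * (1 / 2 ^ gg i) :=
          mul_le_mul_of_nonneg_right b3 (by positivity)
      _ = M * (1 / 2 ^ gg i) * (4 * 2 ^ ⌊u₂ * J⌋₊) ^ j' := by ring
  · -- the base
    intro i hi
    rw [hσb i hi]
    have b1 := E_inv_floor J p₀
    calc 8 * (2 : ℝ) ^ ⌊u₂ * J⌋₊ / 2 ^ ⌊p₀ * J⌋₊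
        = 8 * 2 ^ ⌊u₂ * J⌋₊ * (1 / 2 ^ ⌊p₀ * J⌋₊) := by ring
      _ ≤ 8 * 2 ^ (u₂ * J) * (2 * 2 ^ (-p₀ * J)) :=
        mul_le_mul (mul_le_mul_of_nonneg_left hUle (by norm_num)) b1 (by positivity)
          (mul_nonneg (by norm_num) (E_pos J _).le)
      _ = 16 * (2 ^ (u₂ * J) * 2 ^ (-p₀ * J)) := by ring
      _ = 16 * 2 ^ ((u₂ + -p₀) * J) := by rw [E_add]
      _ ≤ 16 * 2 ^ (-Λ * J) := mul_le_mul_of_nonneg_left (E_mono J (by linarith)) (by norm_num)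
  · intro i hi
    rw [hσb i hi]
    have b1 := E_inv_floor J lam
    have b2 := E_mono J (show -lam ≤ -Λ by linarith)
    have b3 : (2 : ℝ) / 2 ^ ⌊lam * J⌋₊ = 2 * (1 / 2 ^ ⌊lam * J⌋₊) := by ring
    rw [b3]
    linarith
  · -- the digits of the jets
    intro i hi0 hi j' hj'
    obtain ⟨-, -, b1⟩ := hain i j' hi0 hi hj'
    rw [b1 ω hωA, ← hsl]
    obtain ⟨o, ho⟩ : ∃ o, o = ojet F (c i) j' (a' i j' sl) ω := ⟨_, rfl⟩
    rw [← ho]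
    have hN0 := E_pos J (Nv i j')
    have c1 := Int.floor_le ((2 : ℝ) ^ (Nv i j' * J) * o)
    have c2 := Int.lt_floor_add_one ((2 : ℝ) ^ (Nv i j' * J) * o)
    have b2 : |((⌊(2 : ℝ) ^ (Nv i j' * J) * o⌋ : ℤ) : ℝ) / 2 ^ (Nv i j' * J) - o| ≤
        2 ^ (-Nv i j' * J) := by
      have c3 : ((⌊(2 : ℝ) ^ (Nv i j' * J) * o⌋ : ℤ) : ℝ) / 2 ^ (Nv i j' * J) - o =
          (((⌊(2 : ℝ) ^ (Nv i j' * J) * o⌋ : ℤ) : ℝ) - 2 ^ (Nv i j' * J) * o) /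
            2 ^ (Nv i j' * J) := by
        field_simp
      have c4 : (2 : ℝ) ^ (-Nv i j' * J) = 1 / 2 ^ (Nv i j' * J) := by
        rw [neg_mul, Real.rpow_neg (by norm_num), one_div]
      rw [c3, c4, abs_div, abs_of_pos hN0]
      refine div_le_div_of_nonneg_right ?_ hN0.le
      rw [abs_le]
      constructor <;> linarith
    refine b2.trans ?_
    rw [hσc i hi0]
    have b3 := hgg' i hi0 (by omega)
    have b4 := h1 i hi0 hi j' hj'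
    have b5 : (2 : ℝ) ^ (-σ₀ * J) ≤ 1 / 2 := by
      rw [neg_mul, Real.rpow_neg (by norm_num), ← one_div]
      exact one_div_le_one_div_of_le (by norm_num) f3
    have b6 : (2 : ℝ) ^ (j' * u₂ * J) ≤ (4 * 2 ^ ⌊u₂ * J⌋₊) ^ j' := by
      rw [← E_pow]
      exact pow_le_pow_left₀ (E_pos J _).le hU4 j'
    have hj'0 : (0 : ℝ) ≤ j' := Nat.cast_nonneg j'
    have b7 : (j' : ℝ) * u₀ ≤ j' * u₂ := mul_le_mul_of_nonneg_left hu02.le hj'0
    have e0 := E_pos J (-lv i)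
    calc (2 : ℝ) ^ (-Nv i j' * J) ≤ 2 ^ ((-lv i + -s i + -σ₀ + j' * u₂) * J) :=
          E_mono J (by linarith)
      _ = 2 ^ (-lv i * J) * 2 ^ (-s i * J) * 2 ^ (-σ₀ * J) * 2 ^ (j' * u₂ * J) := by
          rw [E_add, E_add, E_add]
      _ ≤ 2 ^ (-lv i * J) * (1 / 2 ^ gg i) * (1 / 2) * (4 * 2 ^ ⌊u₂ * J⌋₊) ^ j' := by
          refine mul_le_mul (mul_le_mul (mul_le_mul_of_nonneg_left b3 e0.le) b5
            (E_pos J _).le (by positivity)) b6 (E_pos J _).le (by positivity)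
      _ = _ := by ring
  · -- the constants
    intro i hi0 hi j' hj'
    obtain ⟨Z, hZ⟩ : ∃ Z : ℝ, Z = 64 * C * 2 ^ ((-(s i + lv i) + -(5 * σ₀ / 8)) * J) := ⟨_, rfl⟩
    have hEZ := E_pos J (-(s i + lv i) + -(5 * σ₀ / 8))
    have hZ0 : 0 ≤ Z := by rw [hZ]; positivity
    have a2 := h2 i hi0 hi j' hj'
    have c1 := tau_le (r := k₀) (i := i) hi.le (σ := σf) (σb := 16 * 2 ^ (-Λ * J))
      (Y := C * M ^ j * (2 ^ (ε * J) * (1 / 2 ^ ⌊(pv i j' - σ₀ / 8) * J⌋₊ +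
        1 / 2 ^ ⌊(s i - d i) * J⌋₊))) (Z := Z) hZ0 (by
        rw [hM]
        refine (arith_core (μ := min (pv i j') (s i)) hC0 (min_le_left _ _) (min_le_right _ _)
          le_rfl (hd8 i hi0 (by omega)).1 hε1 (by positivity) hσY).trans ?_
        rw [hZ]
        exact mul_le_mul_of_nonneg_left (E_mono J (by linarith)) (by positivity))
      (fun l hl => by
        rw [hM]
        rcases Nat.lt_or_ge l r₀ with h' | h'
        · rw [hσb l h']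
          refine (arith_core (μ := min (pv i j') (s i)) hC0 (min_le_left _ _) (min_le_right _ _)
            le_rfl (hd8 i hi0 (by omega)).1 hε1 (by positivity) hσY).trans ?_
          rw [hZ]
          exact mul_le_mul_of_nonneg_left (E_mono J (by linarith)) (by positivity)
        · refine (arith_core (μ := min (pv i j') (s i)) hC0 (min_le_left _ _) (min_le_right _ _)
            le_rfl (hd8 i hi0 (by omega)).1 hε1 (hσ0 l).le (hσX l h')).trans ?_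
          rw [hZ]
          exact mul_le_mul_of_nonneg_left (E_mono J (by linarith [h2' i hi0 hi j' hj' l h' hl]))
            (by positivity))
    have c2 : (k₀ + 1) * Z * 2 ≤ 2 ^ (-lv i * J) * 2 ^ (-s i * J) := by
      have c3 : (2 : ℝ) ^ ((-(s i + lv i) + -(5 * σ₀ / 8)) * J) =
          2 ^ (-lv i * J) * 2 ^ (-s i * J) * 2 ^ (-(5 * σ₀ / 8) * J) := by
        rw [E_add, E_add]
        congr 2
        ring
      have c4 : 128 * C * (k₀ + 1) * 2 ^ (-(5 * σ₀ / 8) * J) ≤ 1 := by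
        have c5 := mul_le_mul_of_nonneg_right f1 (E_pos J (-(5 * σ₀ / 8))).le
        rw [E_add] at c5
        have c6 : (5 * σ₀ / 8 + -(5 * σ₀ / 8)) * (J : ℝ) = 0 := by ring
        rw [c6, Real.rpow_zero] at c5
        exact c5
      have e0 := E_pos J (-lv i)
      have e1 := E_pos J (-s i)
      calc (k₀ + 1) * Z * 2 = 2 ^ (-lv i * J) * 2 ^ (-s i * J) *
            (128 * C * (k₀ + 1) * 2 ^ (-(5 * σ₀ / 8) * J)) := by
            rw [hZ, c3]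
            ring
        _ ≤ 2 ^ (-lv i * J) * 2 ^ (-s i * J) * 1 :=
          mul_le_mul_of_nonneg_left c4 (by positivity)
        _ = _ := mul_one _
    have c3 : (2 : ℝ) ^ (-lv i * J) * 2 ^ (-s i * J) ≤ σf i * (1 / 2 ^ gg i) := by
      rw [hσc i hi0]
      exact mul_le_mul_of_nonneg_left (hgg' i hi0 (by omega)) (E_pos J _).le
    have c4 : gg i = ⌊(s i - d i) * J⌋₊ := by rw [hgg]
    rw [← c4] at c1
    have c5 : 2 * (C * M ^ j * (2 ^ (ε * J) * (1 / 2 ^ ⌊(pv i j' - σ₀ / 8) * J⌋₊ + 1 / 2 ^ gg i) *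
        τf i)) = (C * M ^ j * (2 ^ (ε * J) * (1 / 2 ^ ⌊(pv i j' - σ₀ / 8) * J⌋₊ + 1 / 2 ^ gg i)) *
        (16 * 2 ^ (-Λ * J) + ∑ l ∈ range i, σf l)) * 2 := by
      rw [hτf]
      ring
    rw [c5]
    have c6 := mul_le_mul_of_nonneg_right c1 (show (0 : ℝ) ≤ 2 by norm_num)
    linarith

end Pool.FVL91
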